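import Pool.Agent.Work.MP_02cc39_co.Visible

set_option autoImplicit false

/-!
# Triangulations, pointed pseudotriangulations, interior points, depth
-/

namespace Pool.Agent.Work.MP_02cc39_co

open Classical

/-- all edges at a vertex are on one side of a line through the vertex -/
def Pointed (S : Finset (ℝ × ℝ)) (E : Finset (Sym2 (ℝ × ℝ))) : Prop :=
  ∀ p ∈ S, ∃ v : ℝ × ℝ, ∀ q : ℝ × ℝ, s(p, q) ∈ E → 0 < v.1 * (q.1 - p.1) + v.2 * (q.2 - p.2)

/-- the triangulations of `S`: the maximal noncrossing sets of edges between points of `S` -/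
def Triang (S : Finset (ℝ × ℝ)) : Set (Finset (Sym2 (ℝ × ℝ))) :=
  {E | E ⊆ S.sym2 ∧ (∀ e ∈ E, ¬ e.IsDiag) ∧ NonCrossing E ∧
    ∀ e ∈ S.sym2, ¬ e.IsDiag → e ∉ E → ¬ NonCrossing (insert e E)}

/-- the pointed pseudotriangulations of `S`: the maximal ones among the noncrossing pointed sets of edges -/
def PPT (S : Finset (ℝ × ℝ)) : Set (Finset (Sym2 (ℝ × ℝ))) :=
  {E | E ⊆ S.sym2 ∧ (∀ e ∈ E, ¬ e.IsDiag) ∧ NonCrossing E ∧ Pointed S E ∧
    ∀ e ∈ S.sym2, ¬ e.IsDiag → e ∉ E → ¬ (NonCrossing (insert e E) ∧ Pointed S (insert e E))}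

/-- the points of `S` in the open half plane `{q | 0 < ⟨v, q - p⟩}` -/
noncomputable def half (S : Finset (ℝ × ℝ)) (p v : ℝ × ℝ) : Finset (ℝ × ℝ) :=
  S.filter fun q => 0 < v.1 * (q.1 - p.1) + v.2 * (q.2 - p.2)

/-- the interior points: those which are no vertices of the convex hull -/
noncomputable def inner (S : Finset (ℝ × ℝ)) : Finset (ℝ × ℝ) :=
  S.filter fun p => p ∈ convexHull ℝ ((S : Set (ℝ × ℝ)) \ {p})

/-- the smallest number of points of `S` in an open half plane with `p` on its boundary -/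
noncomputable def depth (S : Finset (ℝ × ℝ)) (p : ℝ × ℝ) : ℕ :=
  sInf {k | ∃ v : ℝ × ℝ, v ≠ 0 ∧ (half S p v).card = k}

end Pool.Agent.Work.MP_02cc39_co
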