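import Pool.Agent.Work.MP_02cc39_co.Inj

set_option autoImplicit false

namespace Pool.Agent.Work.MP_02cc39_co

open Classical Filter Topology

/-- a half plane can be tilted such that no other point of `S` is on its boundary -/
theorem tilt {S : Finset (ℝ × ℝ)} (hS : GenPos S) {p v : ℝ × ℝ} (hp : p ∈ S) (hv : v ≠ 0) :
    ∃ v' : ℝ × ℝ, (∀ q ∈ S, q ≠ p → v'.1 * (q.1 - p.1) + v'.2 * (q.2 - p.2) ≠ 0) ∧
      half S p v' ⊆ half S p v := by
  by_cases h0 : ∀ q ∈ S, q ≠ p → v.1 * (q.1 - p.1) + v.2 * (q.2 - p.2) ≠ 0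
  · exact ⟨v, h0, subset_rfl⟩
  push Not at h0
  obtain ⟨q0, hq0, hq0p, hq0v⟩ := h0
  set f : ℝ × ℝ → ℝ := fun q => v.1 * (q.1 - p.1) + v.2 * (q.2 - p.2) with hf
  set g : ℝ × ℝ → ℝ := fun q => (q0.1 - p.1) * (q.1 - p.1) + (q0.2 - p.2) * (q.2 - p.2) with hg
  have huniq : ∀ q ∈ S, q ≠ p → f q = 0 → q = q0 := by
    intro q hq hqp hfq
    by_contra hqq
    apply hS.det_ne hp hq hq0 (Ne.symm hqp) (Ne.symm hq0p) hqq
    simp only [D, Prod.fst_sub, Prod.snd_sub]
    have e1 : v.1 * (q.1 - p.1) + v.2 * (q.2 - p.2) = 0 := hfq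
    have e2 : v.1 * (q0.1 - p.1) + v.2 * (q0.2 - p.2) = 0 := hq0v
    by_cases hv1 : v.1 = 0
    · have hv2 : v.2 ≠ 0 := fun h => hv (Prod.ext hv1 h)
      apply mul_left_cancel₀ hv2
      rw [hv1] at e1 e2
      linear_combination (q.1 - p.1) * e2 - (q0.1 - p.1) * e1
    · apply mul_left_cancel₀ hv1
      linear_combination (q0.2 - p.2) * e1 - (q.2 - p.2) * e2
  have hev : ∀ᶠ ε : ℝ in 𝓝[>] 0, ∀ q ∈ S, f q ≠ 0 → ε * |g q| < |f q| := by
    rw [Filter.eventually_all_finset]
    intro q _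
    by_cases hfq : f q = 0
    · exact Eventually.of_forall fun ε h => absurd hfq h
    have hlim : Tendsto (fun ε : ℝ => ε * |g q|) (𝓝[>] 0) (𝓝 0) := by
      have : Tendsto (fun ε : ℝ => ε * |g q|) (𝓝 0) (𝓝 (0 * |g q|)) := tendsto_id.mul_const _
      rw [zero_mul] at this
      exact this.mono_left nhdsWithin_le_nhds
    filter_upwards [hlim.eventually (gt_mem_nhds (abs_pos.mpr hfq))] with ε hε _
    exact hε
  obtain ⟨ε, hε, hεpos⟩ := (hev.and self_mem_nhdsWithin).exists
  have hεpos : 0 < ε := hεpos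
  have hg0 : 0 < g q0 := by
    have h1 : q0.1 - p.1 ≠ 0 ∨ q0.2 - p.2 ≠ 0 := by
      by_contra hcon
      push Not at hcon
      exact hq0p (Prod.ext (by linarith [hcon.1]) (by linarith [hcon.2]))
    simp only [hg]
    rcases h1 with h1 | h1
    · have := mul_self_pos.mpr h1
      nlinarith [mul_self_nonneg (q0.2 - p.2)]
    · have := mul_self_pos.mpr h1
      nlinarith [mul_self_nonneg (q0.1 - p.1)]
  refine ⟨(v.1 - ε * (q0.1 - p.1), v.2 - ε * (q0.2 - p.2)), ?_, ?_⟩
  · intro q hq hqp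
    have e : (v.1 - ε * (q0.1 - p.1)) * (q.1 - p.1) + (v.2 - ε * (q0.2 - p.2)) * (q.2 - p.2) = f q - ε * g q := by
      simp only [hf, hg]
      ring
    simp only
    rw [e]
    by_cases hfq : f q = 0
    · rw [hfq, huniq q hq hqp hfq]
      have := mul_pos hεpos hg0
      linarith
    · have h1 := hε q hq hfq
      intro h2
      have h3 : f q = ε * g q := by linarith
      rw [h3, abs_mul, abs_of_pos hεpos] at h1
      exact lt_irrefl _ h1
  · intro q hq
    rw [mem_half] at hq ⊢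
    refine ⟨hq.1, ?_⟩
    have e : (v.1 - ε * (q0.1 - p.1)) * (q.1 - p.1) + (v.2 - ε * (q0.2 - p.2)) * (q.2 - p.2) = f q - ε * g q := by
      simp only [hf, hg]
      ring
    have h1 := hq.2
    simp only at h1
    rw [e] at h1
    have hqp : q ≠ p := by
      rintro rfl
      simp [hf, hg] at h1
    by_cases hfq : f q = 0
    · exfalso
      rw [hfq, huniq q hq.1 hqp hfq] at h1
      have := mul_pos hεpos hg0
      linarith
    · have h2 := hε q hq.1 hfq
      by_contra hcon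
      have h3 : f q ≤ 0 := not_lt.mp hcon
      rw [abs_of_nonpos h3] at h2
      have h4 : -|g q| ≤ g q := neg_abs_le _
      have h5 := mul_le_mul_of_nonneg_left h4 hεpos.le
      linarith

/-- an interior point has points of `S` in every open half plane whose boundary contains no other point of `S` -/
theorem inner_half {S : Finset (ℝ × ℝ)} {p v : ℝ × ℝ} (hp : p ∈ inner S)
    (hv : ∀ q ∈ S, q ≠ p → v.1 * (q.1 - p.1) + v.2 * (q.2 - p.2) ≠ 0) : (half S p v).Nonempty := by
  by_contra hcon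
  rw [Finset.not_nonempty_iff_eq_empty] at hcon
  have hp' := (Finset.mem_filter.mp hp).2
  have hconv : Convex ℝ {y : ℝ × ℝ | v.1 * (y.1 - p.1) + v.2 * (y.2 - p.2) < 0} := by
    intro y hy z hz a b ha hb hab
    simp only [Set.mem_ofPred_eq, Prod.fst_add, Prod.snd_add, Prod.smul_fst, Prod.smul_snd, smul_eq_mul] at *
    have e : v.1 * (a * y.1 + b * z.1 - p.1) + v.2 * (a * y.2 + b * z.2 - p.2) =
        a * (v.1 * (y.1 - p.1) + v.2 * (y.2 - p.2)) + b * (v.1 * (z.1 - p.1) + v.2 * (z.2 - p.2)) := by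
      have : b = 1 - a := by linarith
      subst this
      ring
    rw [e]
    rcases lt_or_eq_of_le ha with h | h
    · have h1 := mul_pos h (neg_pos.mpr hy)
      have h2 := mul_nonneg hb (neg_pos.mpr hz).le
      linarith
    · have hb1 : b = 1 := by linarith
      rw [← h, hb1]
      linarith
  have hsub : ((S : Set (ℝ × ℝ)) \ {p}) ⊆ {y : ℝ × ℝ | v.1 * (y.1 - p.1) + v.2 * (y.2 - p.2) < 0} := by
    intro q hq
    have hqS : q ∈ S := hq.1
    have hqp : q ≠ p := hq.2
    have h1 : q ∉ half S p v := by rw [hcon]; exact Finset.notMem_empty q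
    rw [mem_half] at h1
    have h2 : ¬ (0 < v.1 * (q.1 - p.1) + v.2 * (q.2 - p.2)) := fun h => h1 ⟨hqS, h⟩
    exact lt_of_le_of_ne (not_lt.mp h2) (hv q hqS hqp)
  have := convexHull_min hsub hconv hp'
  simp at this

/-- separation of a point from a finite set -/
theorem separate {A : Set (ℝ × ℝ)} (hA : A.Finite) {p : ℝ × ℝ} (hp : p ∉ convexHull ℝ A) :
    ∃ v : ℝ × ℝ, ∀ q ∈ A, 0 < v.1 * (q.1 - p.1) + v.2 * (q.2 - p.2) := by
  obtain ⟨f, u, h1, h2⟩ := geometric_hahn_banach_point_closed (convex_convexHull ℝ A)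
    (hA.isCompact_convexHull (𝕜 := ℝ)).isClosed hp
  refine ⟨(f (1, 0), f (0, 1)), fun q hq => ?_⟩
  have h3 := h2 q (subset_convexHull ℝ A hq)
  have e : ∀ y : ℝ × ℝ, f y = f (1, 0) * y.1 + f (0, 1) * y.2 := by
    intro y
    have : y = y.1 • ((1 : ℝ), (0 : ℝ)) + y.2 • ((0 : ℝ), (1 : ℝ)) := by
      refine Prod.ext ?_ ?_ <;> simp
    conv_lhs => rw [this]
    rw [map_add, map_smul, map_smul, smul_eq_mul, smul_eq_mul]
    ring
  rw [e p] at h1
  rw [e q] at h3
  simp only
  linarith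

/-- the inequality between the numbers of triangulations and of pointed pseudotriangulations -/
theorem main {S : Finset (ℝ × ℝ)} (hS : GenPos S) :
    (Triang S).ncard ≤ (∏ p ∈ inner S, (2 ^ depth S p - 1)) * (PPT S).ncard := by
  have hex : ∀ p : ℝ × ℝ, ∃ v : ℝ × ℝ, p ∈ inner S →
      (∀ q ∈ S, q ≠ p → v.1 * (q.1 - p.1) + v.2 * (q.2 - p.2) ≠ 0) ∧ (half S p v).card ≤ depth S p := by
    intro p
    by_cases hp : p ∈ inner S
    · have hpS : p ∈ S := (Finset.mem_filter.mp hp).1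
      have hne : {k | ∃ v : ℝ × ℝ, v ≠ 0 ∧ (half S p v).card = k}.Nonempty :=
        ⟨_, (1, 0), by simp, rfl⟩
      obtain ⟨v, hv0, hv⟩ := Nat.sInf_mem hne
      obtain ⟨v', h1, h2⟩ := tilt hS hpS hv0
      refine ⟨v', fun _ => ⟨h1, ?_⟩⟩
      calc (half S p v').card ≤ (half S p v).card := Finset.card_le_card h2
        _ = depth S p := hv
    · exact ⟨0, fun h => absurd h hp⟩
  choose vv hvv using hex
  refine (count hS (inner S) (Finset.filter_subset _ _) vv (fun p hp => (hvv p hp).1)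
    (fun p hp => inner_half hp (hvv p hp).1) ?_).trans ?_
  · intro p hpS hp
    have hp' : p ∉ convexHull ℝ ((S : Set (ℝ × ℝ)) \ {p}) := fun h => hp (Finset.mem_filter.mpr ⟨hpS, h⟩)
    obtain ⟨v, hv⟩ := separate (S.finite_toSet.subset Set.sdiff_subset) hp'
    exact ⟨v, fun q hq hqp => hv q ⟨hq, hqp⟩⟩
  · refine Nat.mul_le_mul_right _ ?_
    refine Finset.prod_le_prod' fun p hp => ?_
    exact Nat.sub_le_sub_right (Nat.pow_le_pow_right (by norm_num) (hvv p hp).2) 1

/-- a point which becomes a vertex of the convex hull after the deletion of one other point has depth at most one -/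
theorem depth_le_one {S : Finset (ℝ × ℝ)} {p b : ℝ × ℝ} (hS : ∃ q ∈ S, q ≠ p ∧ q ≠ b)
    (hp : p ∉ convexHull ℝ ((S : Set (ℝ × ℝ)) \ {p, b})) : depth S p ≤ 1 := by
  obtain ⟨v, hv⟩ := separate (S.finite_toSet.subset Set.sdiff_subset) hp
  have hv0 : -v ≠ 0 := by
    obtain ⟨q, hq, hqp, hqb⟩ := hS
    intro h
    have h1 := hv q ⟨hq, by simp [hqp, hqb]⟩
    have h2 : v = 0 := by simpa using h
    rw [h2] at h1
    simp at h1
  have hsub : half S p (-v) ⊆ {b} := by
    intro q hq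
    rw [mem_half] at hq
    rw [Finset.mem_singleton]
    by_contra hqb
    have hqp : q ≠ p := by
      rintro rfl
      simp at hq
    have h1 := hv q ⟨hq.1, by simp [hqp, hqb]⟩
    have h2 := hq.2
    simp only [Prod.fst_neg, Prod.snd_neg] at h2
    linarith
  calc depth S p ≤ (half S p (-v)).card := Nat.sInf_le ⟨-v, hv0, rfl⟩
    _ ≤ 1 := by
      have := Finset.card_le_card hsub
      simpa using this

end Pool.Agent.Work.MP_02cc39_co
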