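import Pool.Agent.Work.MP_02cc39_co.Defs

set_option autoImplicit false

namespace Pool.Agent.Work.MP_02cc39_co

open Classical

theorem nonCrossing_mono {E F : Finset (Sym2 (ℝ × ℝ))} (h : E ⊆ F) (hF : NonCrossing F) : NonCrossing E :=
  fun a b c d h1 h2 => hF a b c d (h h1) (h h2)

theorem nonCrossing_insert {T : Finset (Sym2 (ℝ × ℝ))} (hT : NonCrossing T) {p x : ℝ × ℝ}
    (h : ∀ c d : ℝ × ℝ, s(c, d) ∈ T → p ≠ c → p ≠ d → x ≠ c → x ≠ d → Disjoint (segment ℝ p x) (segment ℝ c d)) :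
    NonCrossing (insert s(p, x) T) := by
  intro a b c d h1 h2 hac had hbc hbd
  rw [Finset.mem_insert] at h1 h2
  rcases h1 with h1 | h1
  · rw [Sym2.eq_iff] at h1
    rcases h2 with h2 | h2
    · rw [Sym2.eq_iff] at h2
      rcases h1 with ⟨rfl, rfl⟩ | ⟨rfl, rfl⟩
      · rcases h2 with ⟨h3, _⟩ | ⟨_, h3⟩
        · exact absurd h3.symm hac
        · exact absurd h3.symm had
      · rcases h2 with ⟨_, h3⟩ | ⟨h3, _⟩
        · exact absurd h3.symm had
        · exact absurd h3.symm hac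
    · rcases h1 with ⟨rfl, rfl⟩ | ⟨rfl, rfl⟩
      · exact h c d h2 hac had hbc hbd
      · rw [segment_symm]
        exact h c d h2 hbc hbd hac had
  · rcases h2 with h2 | h2
    · rw [Sym2.eq_iff] at h2
      rcases h2 with ⟨rfl, rfl⟩ | ⟨rfl, rfl⟩
      · exact (h a b h1 (Ne.symm hac) (Ne.symm hbc) (Ne.symm had) (Ne.symm hbd)).symm
      · rw [segment_symm ℝ c d]
        exact (h a b h1 (Ne.symm had) (Ne.symm hbd) (Ne.symm hac) (Ne.symm hbc)).symm
    · exact hT a b c d h1 h2 hac had hbc hbd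

/-- every pointed noncrossing graph is contained in a pointed pseudotriangulation -/
theorem exists_ppt {S : Finset (ℝ × ℝ)} {G : Finset (Sym2 (ℝ × ℝ))} (h1 : G ⊆ S.sym2) (h2 : ∀ e ∈ G, ¬ e.IsDiag)
    (h3 : NonCrossing G) (h4 : Pointed S G) : ∃ M ∈ PPT S, G ⊆ M := by
  set C : Finset (Finset (Sym2 (ℝ × ℝ))) :=
    S.sym2.powerset.filter fun M => (∀ e ∈ M, ¬ e.IsDiag) ∧ NonCrossing M ∧ Pointed S M ∧ G ⊆ M with hC
  have hne : C.Nonempty := ⟨G, by
    simp only [hC, Finset.mem_filter, Finset.mem_powerset]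
    exact ⟨h1, h2, h3, h4, subset_rfl⟩⟩
  obtain ⟨M, hM, hmax⟩ := Finset.exists_max_image C Finset.card hne
  simp only [hC, Finset.mem_filter, Finset.mem_powerset] at hM
  obtain ⟨g1, g2, g3, g4, g5⟩ := hM
  refine ⟨M, ⟨g1, g2, g3, g4, ?_⟩, g5⟩
  rintro e he hed heM ⟨k1, k2⟩
  have : insert e M ∈ C := by
    simp only [hC, Finset.mem_filter, Finset.mem_powerset]
    refine ⟨Finset.insert_subset he g1, ?_, k1, k2, g5.trans (Finset.subset_insert _ _)⟩
    intro e' he'
    rw [Finset.mem_insert] at he'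
    rcases he' with rfl | he'
    · exact hed
    · exact g2 e' he'
  have := hmax _ this
  rw [Finset.card_insert_of_notMem heM] at this
  omega

theorem mem_half {S : Finset (ℝ × ℝ)} {p v q : ℝ × ℝ} :
    q ∈ half S p v ↔ q ∈ S ∧ 0 < v.1 * (q.1 - p.1) + v.2 * (q.2 - p.2) := by
  simp [half]

theorem triang_finite (S : Finset (ℝ × ℝ)) : (Triang S).Finite := by
  refine (S.sym2.powerset.finite_toSet).subset ?_
  intro E hE
  simp only [Finset.coe_powerset, Set.mem_preimage, Set.mem_powerset_iff, Finset.coe_subset]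
  exact hE.1

theorem ppt_finite (S : Finset (ℝ × ℝ)) : (PPT S).Finite := by
  refine (S.sym2.powerset.finite_toSet).subset ?_
  intro E hE
  simp only [Finset.coe_powerset, Set.mem_preimage, Set.mem_powerset_iff, Finset.coe_subset]
  exact hE.1

/-- an interior point has an edge into every open half plane which contains points of `S` -/
theorem exists_edge {S : Finset (ℝ × ℝ)} (hS : GenPos S) {T : Finset (Sym2 (ℝ × ℝ))} (hT : T ∈ Triang S)
    {p v : ℝ × ℝ} (hp : p ∈ S) (hne : (half S p v).Nonempty) : ∃ x ∈ half S p v, s(p, x) ∈ T := by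
  obtain ⟨s, hs⟩ := hne
  rw [mem_half] at hs
  obtain ⟨h1, h2, h3, h4⟩ := hT
  obtain ⟨x, hx, hvx, hvis⟩ := visible hS h1 h2 h3 hp hs.1 v hs.2
  refine ⟨x, mem_half.mpr ⟨hx, hvx⟩, ?_⟩
  by_contra hcon
  refine h4 s(p, x) ?_ ?_ hcon (nonCrossing_insert h3 hvis)
  · rw [Finset.mk_mem_sym2_iff]
    exact ⟨hp, hx⟩
  · rw [Sym2.mk_isDiag_iff]
    rintro rfl
    simp at hvx

/-- the counting argument -/
theorem count {S : Finset (ℝ × ℝ)} (hS : GenPos S) (I : Finset (ℝ × ℝ)) (hI : I ⊆ S) (vv : ℝ × ℝ → ℝ × ℝ)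
    (hgen : ∀ p ∈ I, ∀ q ∈ S, q ≠ p → (vv p).1 * (q.1 - p.1) + (vv p).2 * (q.2 - p.2) ≠ 0)
    (hne : ∀ p ∈ I, (half S p (vv p)).Nonempty)
    (hext : ∀ p ∈ S, p ∉ I → ∃ v : ℝ × ℝ, ∀ q ∈ S, q ≠ p → 0 < v.1 * (q.1 - p.1) + v.2 * (q.2 - p.2)) :
    (Triang S).ncard ≤ (∏ p ∈ I, (2 ^ (half S p (vv p)).card - 1)) * (PPT S).ncard := by
  set R : Sym2 (ℝ × ℝ) → Prop := fun e => ∃ p ∈ I, ∃ b ∈ half S p (vv p), e = s(p, b) with hR
  -- the pointed graph
  have hG : ∀ T ∈ Triang S, Pointed S (T.filter fun e => ¬ R e) := by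
    intro T hT p hp
    by_cases hpI : p ∈ I
    · refine ⟨-(vv p), fun q hq => ?_⟩
      rw [Finset.mem_filter] at hq
      have hqS : q ∈ S := by
        have := hT.1 hq.1
        rw [Finset.mk_mem_sym2_iff] at this
        exact this.2
      have hqp : q ≠ p := by
        rintro rfl
        exact hT.2.1 _ hq.1 (by simp)
      have h1 : ¬ (0 < (vv p).1 * (q.1 - p.1) + (vv p).2 * (q.2 - p.2)) := by
        intro h
        exact hq.2 ⟨p, hpI, q, mem_half.mpr ⟨hqS, h⟩, rfl⟩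
      have h2 := hgen p hpI q hqS hqp
      have h3 : (vv p).1 * (q.1 - p.1) + (vv p).2 * (q.2 - p.2) < 0 := lt_of_le_of_ne (not_lt.mp h1) h2
      simp only [Prod.fst_neg, Prod.snd_neg]
      linarith
    · obtain ⟨v, hv⟩ := hext p hp hpI
      refine ⟨v, fun q hq => ?_⟩
      rw [Finset.mem_filter] at hq
      have hqS : q ∈ S := by
        have := hT.1 hq.1
        rw [Finset.mk_mem_sym2_iff] at this
        exact this.2
      have hqp : q ≠ p := by
        rintro rfl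
        exact hT.2.1 _ hq.1 (by simp)
      exact hv q hqS hqp
  have hM : ∀ T : Finset (Sym2 (ℝ × ℝ)), ∃ M : Finset (Sym2 (ℝ × ℝ)), T ∈ Triang S →
      M ∈ PPT S ∧ (T.filter fun e => ¬ R e) ⊆ M := by
    intro T
    by_cases hT : T ∈ Triang S
    · obtain ⟨M, h1, h2⟩ := exists_ppt (S := S) (G := T.filter fun e => ¬ R e)
        ((Finset.filter_subset _ _).trans hT.1) (fun e he => hT.2.1 e (Finset.mem_filter.mp he).1)
        (nonCrossing_mono (Finset.filter_subset _ _) hT.2.2.1) (hG T hT)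
      exact ⟨M, fun _ => ⟨h1, h2⟩⟩
    · exact ⟨∅, fun h => absurd h hT⟩
  choose M hM using hM
  set pat : Finset (Sym2 (ℝ × ℝ)) → (p : ℝ × ℝ) → p ∈ I → Finset (ℝ × ℝ) :=
    fun T p _ => (half S p (vv p)).filter fun b => s(p, b) ∈ T with hpat
  set Cod : Finset (Finset (Sym2 (ℝ × ℝ)) × ((p : ℝ × ℝ) → p ∈ I → Finset (ℝ × ℝ))) :=
    (ppt_finite S).toFinset ×ˢ I.pi fun p => (half S p (vv p)).powerset.erase ∅ with hCod
  have hcard : Cod.card = (∏ p ∈ I, (2 ^ (half S p (vv p)).card - 1)) * (PPT S).ncard := by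
    rw [hCod, Finset.card_product, Finset.card_pi, ← Set.ncard_eq_toFinset_card (PPT S) (ppt_finite S), mul_comm]
    congr 1
    refine Finset.prod_congr rfl fun p _ => ?_
    rw [Finset.card_erase_of_mem (Finset.empty_mem_powerset _), Finset.card_powerset]
  rw [← hcard, Set.ncard_eq_toFinset_card _ (triang_finite S)]
  refine Finset.card_le_card_of_injOn (fun T => (M T, pat T)) ?_ ?_
  · intro T hT
    rw [Finset.mem_coe, Set.Finite.mem_toFinset] at hT
    rw [Finset.mem_coe, hCod, Finset.mem_product, Set.Finite.mem_toFinset, Finset.mem_pi]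
    refine ⟨(hM T hT).1, ?_⟩
    intro p hp
    rw [Finset.mem_erase, Finset.mem_powerset]
    refine ⟨?_, Finset.filter_subset _ _⟩
    obtain ⟨x, hx, hxT⟩ := exists_edge hS hT (hI hp) (hne p hp)
    have : x ∈ pat T p hp := Finset.mem_filter.mpr ⟨hx, hxT⟩
    exact Finset.ne_empty_of_mem this
  · intro T1 hT1 T2 hT2 heq
    rw [Finset.mem_coe, Set.Finite.mem_toFinset] at hT1 hT2
    simp only [Prod.mk.injEq] at heq
    obtain ⟨hMM, hpp⟩ := heq
    -- the two graphs contain the same edges of the special kind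
    have hRR : ∀ e, R e → (e ∈ T1 ↔ e ∈ T2) := by
      rintro e ⟨p, hp, b, hb, rfl⟩
      have h1 : pat T1 p hp = pat T2 p hp := by rw [hpp]
      have h2 : b ∈ pat T1 p hp ↔ b ∈ pat T2 p hp := by rw [h1]
      simp only [hpat, Finset.mem_filter, hb, true_and] at h2
      exact h2
    have hnc : NonCrossing (T1 ∪ T2) := by
      have hsub : ∀ T T' : Finset (Sym2 (ℝ × ℝ)), T ∈ Triang S → T' ∈ Triang S → M T = M T' →
          (∀ e, R e → (e ∈ T ↔ e ∈ T')) → ∀ a b c d : ℝ × ℝ, s(a, b) ∈ T → s(c, d) ∈ T' →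
          a ≠ c → a ≠ d → b ≠ c → b ≠ d → Disjoint (segment ℝ a b) (segment ℝ c d) := by
        intro T T' hT hT' hMe hR' a b c d h1 h2 hac had hbc hbd
        by_cases hr1 : R s(a, b)
        · exact hT'.2.2.1 a b c d ((hR' _ hr1).mp h1) h2 hac had hbc hbd
        by_cases hr2 : R s(c, d)
        · exact hT.2.2.1 a b c d h1 ((hR' _ hr2).mpr h2) hac had hbc hbd
        refine (hM T hT).1.2.2.1 a b c d ((hM T hT).2 (Finset.mem_filter.mpr ⟨h1, hr1⟩)) ?_ hac had hbc hbd
        rw [hMe]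
        exact (hM T' hT').2 (Finset.mem_filter.mpr ⟨h2, hr2⟩)
      intro a b c d h1 h2 hac had hbc hbd
      rw [Finset.mem_union] at h1 h2
      rcases h1 with h1 | h1 <;> rcases h2 with h2 | h2
      · exact hT1.2.2.1 a b c d h1 h2 hac had hbc hbd
      · exact hsub T1 T2 hT1 hT2 hMM hRR a b c d h1 h2 hac had hbc hbd
      · exact hsub T2 T1 hT2 hT1 hMM.symm (fun e he => (hRR e he).symm) a b c d h1 h2 hac had hbc hbd
      · exact hT2.2.2.1 a b c d h1 h2 hac had hbc hbd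
    have hle : ∀ T T' : Finset (Sym2 (ℝ × ℝ)), T ∈ Triang S → T' ∈ Triang S → NonCrossing (T ∪ T') → T' ⊆ T := by
      intro T T' hT hT' h e he
      by_contra hcon
      refine hT.2.2.2 e (hT'.1 he) (hT'.2.1 e he) hcon (nonCrossing_mono ?_ h)
      intro e' he'
      rw [Finset.mem_insert] at he'
      rw [Finset.mem_union]
      rcases he' with rfl | he'
      · exact Or.inr he
      · exact Or.inl he'
    exact Finset.Subset.antisymm (hle T2 T1 hT2 hT1 (by rwa [Finset.union_comm])) (hle T1 T2 hT1 hT2 hnc)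

end Pool.Agent.Work.MP_02cc39_co
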