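import Mathlib

set_option autoImplicit false

/-!
# A point with a given open half plane sees a point of the set in this half plane
-/

namespace Pool.Agent.Work.MP_02cc39_co

/-- two edges without a common end do not meet -/
def NonCrossing (E : Finset (Sym2 (ℝ × ℝ))) : Prop :=
  ∀ a b c d : ℝ × ℝ, s(a, b) ∈ E → s(c, d) ∈ E → a ≠ c → a ≠ d → b ≠ c → b ≠ d →
    Disjoint (segment ℝ a b) (segment ℝ c d)

/-- no three points of `S` are collinear -/
def GenPos (S : Finset (ℝ × ℝ)) : Prop :=
  ∀ a ∈ S, ∀ b ∈ S, ∀ c ∈ S, a ≠ b → a ≠ c → b ≠ c → ¬ Collinear ℝ ({a, b, c} : Set (ℝ × ℝ))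

/-- the determinant -/
def D (u w : ℝ × ℝ) : ℝ := u.1 * w.2 - u.2 * w.1

theorem collinear_of_det {a b c : ℝ × ℝ} (hab : a ≠ b) (h : D (b - a) (c - a) = 0) :
    Collinear ℝ ({a, b, c} : Set (ℝ × ℝ)) := by
  rw [collinear_iff_of_mem (p₀ := a) (by simp)]
  refine ⟨b - a, ?_⟩
  have hne : (b - a).1 ^ 2 + (b - a).2 ^ 2 ≠ 0 := by
    intro h0
    have h1 : (b - a).1 = 0 := by nlinarith [sq_nonneg (b - a).1, sq_nonneg (b - a).2]
    have h2 : (b - a).2 = 0 := by nlinarith [sq_nonneg (b - a).1, sq_nonneg (b - a).2]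
    apply hab
    have h1' : b.1 - a.1 = 0 := h1
    have h2' : b.2 - a.2 = 0 := h2
    exact Prod.ext (by linarith) (by linarith)
  intro y hy
  simp only [Set.mem_insert_iff, Set.mem_singleton_iff] at hy
  rcases hy with rfl | rfl | rfl
  · exact ⟨0, by simp⟩
  · exact ⟨1, by simp⟩
  · refine ⟨((b - a).1 * (y - a).1 + (b - a).2 * (y - a).2) / ((b - a).1 ^ 2 + (b - a).2 ^ 2), ?_⟩
    simp only [D, Prod.fst_sub, Prod.snd_sub] at h hne ⊢
    refine Prod.ext ?_ ?_
    · simp only [vadd_eq_add, Prod.fst_add, Prod.smul_fst, Prod.fst_sub, smul_eq_mul]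
      field_simp
      linear_combination (-(b.2 - a.2)) * h
    · simp only [vadd_eq_add, Prod.snd_add, Prod.smul_snd, Prod.snd_sub, smul_eq_mul]
      field_simp
      linear_combination (b.1 - a.1) * h

theorem GenPos.det_ne {S : Finset (ℝ × ℝ)} (hS : GenPos S) {a b c : ℝ × ℝ} (ha : a ∈ S) (hb : b ∈ S) (hc : c ∈ S)
    (hab : a ≠ b) (hac : a ≠ c) (hbc : b ≠ c) : D (b - a) (c - a) ≠ 0 :=
  fun h => hS a ha b hb c hc hab hac hbc (collinear_of_det hab h)

theorem det_segment {a b u : ℝ × ℝ} (hu : u ∈ segment ℝ a b) : D (b - a) (u - a) = 0 := by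
  obtain ⟨s, t, _, _, hst, rfl⟩ := hu
  simp only [D, Prod.fst_sub, Prod.snd_sub, Prod.fst_add, Prod.snd_add, Prod.smul_fst, Prod.smul_snd, smul_eq_mul]
  have : s = 1 - t := by linarith
  subst this
  ring

/-- two different edges which meet without crossing meet in a common end -/
theorem meet {S : Finset (ℝ × ℝ)} (hS : GenPos S) {E : Finset (Sym2 (ℝ × ℝ))} (hE : E ⊆ S.sym2)
    (hd : ∀ e ∈ E, ¬ e.IsDiag) (hnc : NonCrossing E) {a b c d u : ℝ × ℝ} (hab : s(a, b) ∈ E) (hcd : s(c, d) ∈ E)
    (hne : s(a, b) ≠ s(c, d)) (h1 : u ∈ segment ℝ a b) (h2 : u ∈ segment ℝ c d) :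
    (u = a ∨ u = b) ∧ (u = c ∨ u = d) := by
  have hab' := hE hab
  have hcd' := hE hcd
  rw [Finset.mk_mem_sym2_iff] at hab' hcd'
  have hab2 : a ≠ b := fun h => hd _ hab (by simp [h])
  have hcd2 : c ≠ d := fun h => hd _ hcd (by simp [h])
  -- an auxiliary statement: a common end `e`, other ends `x`, `y`
  have key : ∀ e x y : ℝ × ℝ, e ∈ S → x ∈ S → y ∈ S → e ≠ x → e ≠ y → x ≠ y → u ∈ segment ℝ e x → u ∈ segment ℝ e y →
      u = e := by
    intro e x y he hx hy hex hey hxy hu1 hu2
    by_contra hue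
    have hD := hS.det_ne he hx hy hex hey hxy
    obtain ⟨s, t, hs, ht, hst, rfl⟩ := hu1
    obtain ⟨s', t', hs', ht', hst', h⟩ := hu2
    have e1 := congrArg Prod.fst h
    have e2 := congrArg Prod.snd h
    simp only [Prod.fst_add, Prod.snd_add, Prod.smul_fst, Prod.smul_snd, smul_eq_mul] at e1 e2
    have hs1 : s = 1 - t := by linarith
    have hs1' : s' = 1 - t' := by linarith
    subst hs1 hs1'
    have f1 : t' * (y.1 - e.1) = t * (x.1 - e.1) := by linarith
    have f2 : t' * (y.2 - e.2) = t * (x.2 - e.2) := by linarith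
    have g1 : t' * D (x - e) (y - e) = 0 := by
      simp only [D, Prod.fst_sub, Prod.snd_sub]
      linear_combination (x.1 - e.1) * f2 - (x.2 - e.2) * f1
    have g2 : t * D (x - e) (y - e) = 0 := by
      simp only [D, Prod.fst_sub, Prod.snd_sub]
      linear_combination (-(y.2 - e.2)) * f1 + (y.1 - e.1) * f2
    have h0 : t = 0 := by
      rcases mul_eq_zero.mp g2 with h | h
      · exact h
      · exact absurd h hD
    apply hue
    subst h0
    simp
  by_cases hac : a = c
  · subst hac
    have hbd : b ≠ d := fun h => hne (by rw [h])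
    have := key a b d hab'.1 hab'.2 hcd'.2 hab2 hcd2 hbd h1 h2
    exact ⟨Or.inl this, Or.inl this⟩
  by_cases had : a = d
  · subst had
    have hbc : b ≠ c := fun h => hne (by rw [h, Sym2.eq_swap])
    have := key a b c hab'.1 hab'.2 hcd'.1 hab2 (Ne.symm hcd2) hbc h1 (by rwa [segment_symm])
    exact ⟨Or.inl this, Or.inr this⟩
  by_cases hbc : b = c
  · subst hbc
    have := key b a d hab'.2 hab'.1 hcd'.2 (Ne.symm hab2) hcd2 had (by rwa [segment_symm]) h2
    exact ⟨Or.inr this, Or.inl this⟩
  by_cases hbd : b = d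
  · subst hbd
    have := key b a c hab'.2 hab'.1 hcd'.1 (Ne.symm hab2) (Ne.symm hcd2) hac (by rwa [segment_symm])
      (by rwa [segment_symm])
    exact ⟨Or.inr this, Or.inr this⟩
  exact absurd h2 (Set.disjoint_left.mp (hnc a b c d hab hcd hac had hbc hbd) h1)

theorem isCompact_segment' (a b : ℝ × ℝ) : IsCompact (segment ℝ a b) := by
  rw [segment_eq_image_lineMap]
  exact isCompact_Icc.image AffineMap.lineMap_continuous

/-- a point on a segment between `w` and `c` where an affine function vanishes -/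
theorem exists_zero {f0 f1 : ℝ} (h0 : 0 ≤ f0) (h1 : f1 < 0) :
    ∃ l : ℝ, 0 ≤ l ∧ l < 1 ∧ (1 - l) * f0 + l * f1 = 0 := by
  refine ⟨f0 / (f0 - f1), div_nonneg h0 (by linarith), ?_, ?_⟩
  · rw [div_lt_one (by linarith)]
    linarith
  · have : f0 - f1 ≠ 0 := by linarith
    field_simp
    ring

/-- A noncrossing graph: if some point of `S` is in an open half plane at `p`, then some point of `S` in this half
plane is visible from `p`. -/
theorem visible {S : Finset (ℝ × ℝ)} (hS : GenPos S) {E : Finset (Sym2 (ℝ × ℝ))} (hE : E ⊆ S.sym2)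
    (hd : ∀ e ∈ E, ¬ e.IsDiag) (hnc : NonCrossing E) {p s : ℝ × ℝ} (hp : p ∈ S) (hs : s ∈ S) (v : ℝ × ℝ)
    (hv : 0 < v.1 * (s.1 - p.1) + v.2 * (s.2 - p.2)) :
    ∃ x ∈ S, 0 < v.1 * (x.1 - p.1) + v.2 * (x.2 - p.2) ∧
      ∀ c d : ℝ × ℝ, s(c, d) ∈ E → p ≠ c → p ≠ d → x ≠ c → x ≠ d → Disjoint (segment ℝ p x) (segment ℝ c d) := by
  classical
  by_cases hvis : ∀ c d : ℝ × ℝ, s(c, d) ∈ E → p ≠ c → p ≠ d → s ≠ c → s ≠ d →
      Disjoint (segment ℝ p s) (segment ℝ c d)
  · exact ⟨s, hs, hv, hvis⟩
  have hps : p ≠ s := by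
    rintro rfl
    simp at hv
  -- the first crossing
  set Q : Finset ((ℝ × ℝ) × (ℝ × ℝ)) :=
    (S ×ˢ S).filter fun q => s(q.1, q.2) ∈ E ∧ p ≠ q.1 ∧ p ≠ q.2 ∧ s ≠ q.1 ∧ s ≠ q.2 with hQ
  have hQmem : ∀ c d : ℝ × ℝ, s(c, d) ∈ E → p ≠ c → p ≠ d → s ≠ c → s ≠ d → (c, d) ∈ Q := by
    intro c d h h1 h2 h3 h4
    have := hE h
    rw [Finset.mk_mem_sym2_iff] at this
    simp only [hQ, Finset.mem_filter, Finset.mem_product]
    exact ⟨⟨this.1, this.2⟩, h, h1, h2, h3, h4⟩
  let line : ℝ → ℝ × ℝ := fun t => p + t • (s - p)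
  have hline : Continuous line := by fun_prop
  set Θ : Set ℝ := Set.Icc 0 1 ∩ ⋃ q ∈ Q, line ⁻¹' segment ℝ q.1 q.2 with hΘ
  have hcomp : IsCompact Θ := by
    refine isCompact_Icc.inter_right ?_
    refine Set.Finite.isClosed_biUnion Q.finite_toSet fun q _ => ?_
    exact (isCompact_segment' _ _).isClosed.preimage hline
  have hseg : ∀ y : ℝ × ℝ, y ∈ segment ℝ p s ↔ ∃ t ∈ Set.Icc (0 : ℝ) 1, line t = y := by
    intro y
    rw [segment_eq_image']
    rfl
  have hne : Θ.Nonempty := by
    push Not at hvis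
    obtain ⟨c, d, h, h1, h2, h3, h4, h5⟩ := hvis
    rw [Set.not_disjoint_iff] at h5
    obtain ⟨y, hy1, hy2⟩ := h5
    obtain ⟨t, ht, rfl⟩ := (hseg y).mp hy1
    refine ⟨t, ht, ?_⟩
    simp only [Set.mem_iUnion]
    exact ⟨(c, d), hQmem c d h h1 h2 h3 h4, hy2⟩
  obtain ⟨t, ⟨⟨ht0, ht1⟩, htu⟩, htmin⟩ := hcomp.exists_isLeast hne
  have hmin : ∀ c d : ℝ × ℝ, s(c, d) ∈ E → p ≠ c → p ≠ d → s ≠ c → s ≠ d → ∀ r : ℝ, 0 ≤ r → r ≤ 1 →
      line r ∈ segment ℝ c d → t ≤ r := by
    intro c d h h1 h2 h3 h4 r hr0 hr1 hr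
    refine htmin ⟨⟨hr0, hr1⟩, ?_⟩
    simp only [Set.mem_iUnion]
    exact ⟨(c, d), hQmem c d h h1 h2 h3 h4, hr⟩
  simp only [Set.mem_iUnion] at htu
  obtain ⟨⟨a', b'⟩, hab', hz'⟩ := htu
  simp only [hQ, Finset.mem_filter, Finset.mem_product] at hab'
  obtain ⟨⟨ha'S, hb'S⟩, hab'E, hpa', hpb', hsa', hsb'⟩ := hab'
  set z : ℝ × ℝ := line t with hz
  have hzz : z ∈ segment ℝ a' b' := hz'
  have hab2' : a' ≠ b' := fun h => hd _ hab'E (by simp [h])
  have hza : ∀ a b : ℝ × ℝ, a ∈ S → b ∈ S → a ≠ b → p ≠ a → s ≠ a → p ≠ b → s ≠ b → z ∈ segment ℝ a b → z ≠ a := by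
    intro a b ha hb hab hpa hsa hpb hsb hzab hza
    have := hS.det_ne hp hs ha hps hpa hsa
    apply this
    rw [← hza, hz]
    simp only [line, D, Prod.fst_sub, Prod.snd_sub, Prod.fst_add, Prod.snd_add, Prod.smul_fst, Prod.smul_snd,
      smul_eq_mul]
    ring
  -- choose the end in the half plane
  have hz1 : z.1 - p.1 = t * (s.1 - p.1) := by
    simp only [hz, line, Prod.fst_add, Prod.smul_fst, Prod.fst_sub, smul_eq_mul]
    ring
  have hz2 : z.2 - p.2 = t * (s.2 - p.2) := by
    simp only [hz, line, Prod.snd_add, Prod.smul_snd, Prod.snd_sub, smul_eq_mul]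
    ring
  have htpos : 0 < t := by
    rcases lt_or_eq_of_le ht0 with h | h
    · exact h
    exfalso
    have hzp : z = p := by
      rw [hz, ← h]
      simp [line]
    have := hS.det_ne ha'S hb'S hp hab2' (Ne.symm hpa') (Ne.symm hpb')
    apply this
    rw [← hzp]
    exact det_segment hzz
  have htlt : t < 1 := by
    rcases lt_or_eq_of_le ht1 with h | h
    · exact h
    exfalso
    have hzp : z = s := by
      rw [hz, h]
      simp [line]
    have := hS.det_ne ha'S hb'S hs hab2' (Ne.symm hsa') (Ne.symm hsb')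
    apply this
    rw [← hzp]
    exact det_segment hzz
  have hvz : 0 < v.1 * (z.1 - p.1) + v.2 * (z.2 - p.2) := by
    rw [hz1, hz2]
    have : v.1 * (t * (s.1 - p.1)) + v.2 * (t * (s.2 - p.2)) = t * (v.1 * (s.1 - p.1) + v.2 * (s.2 - p.2)) := by
      ring
    rw [this]
    positivity
  obtain ⟨a, b, haS, hbS, habE, hab, hpa, hpb, hsa, hsb, hzab, hva⟩ : ∃ a b : ℝ × ℝ, a ∈ S ∧ b ∈ S ∧ s(a, b) ∈ E ∧
      a ≠ b ∧ p ≠ a ∧ p ≠ b ∧ s ≠ a ∧ s ≠ b ∧ z ∈ segment ℝ a b ∧ 0 < v.1 * (a.1 - p.1) + v.2 * (a.2 - p.2) := by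
    by_cases h : 0 < v.1 * (a'.1 - p.1) + v.2 * (a'.2 - p.2)
    · exact ⟨a', b', ha'S, hb'S, hab'E, hab2', hpa', hpb', hsa', hsb', hzz, h⟩
    · refine ⟨b', a', hb'S, ha'S, by rwa [Sym2.eq_swap], Ne.symm hab2', hpb', hpa', hsb', hsa',
        by rwa [segment_symm], ?_⟩
      obtain ⟨q, r, hq, hr, hqr, hzq⟩ := hzz
      have e1 := congrArg Prod.fst hzq
      have e2 := congrArg Prod.snd hzq
      simp only [Prod.fst_add, Prod.snd_add, Prod.smul_fst, Prod.smul_snd, smul_eq_mul] at e1 e2
      have hq1 : q = 1 - r := by linarith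
      subst hq1
      by_contra h'
      have : v.1 * (z.1 - p.1) + v.2 * (z.2 - p.2) = (1 - r) * (v.1 * (a'.1 - p.1) + v.2 * (a'.2 - p.2)) +
          r * (v.1 * (b'.1 - p.1) + v.2 * (b'.2 - p.2)) := by
        rw [← e1, ← e2]
        ring
      have h3 := mul_nonneg hq (neg_nonneg.mpr (not_lt.mp h))
      have h4 := mul_nonneg hr (neg_nonneg.mpr (not_lt.mp h'))
      linarith
  -- coordinates
  have hDs : D (s - p) (a - p) ≠ 0 := hS.det_ne hp hs haS hps hpa hsa
  have hDz : ∀ y : ℝ × ℝ, D (z - p) y = t * D (s - p) y := by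
    intro y
    simp only [D, Prod.fst_sub, Prod.snd_sub, hz1, hz2]
    ring
  set Δ : ℝ := D (z - p) (a - p) with hΔ
  have hΔ0 : Δ ≠ 0 := by
    rw [hΔ, hDz]
    exact mul_ne_zero htpos.ne' hDs
  let A : ℝ × ℝ → ℝ := fun y => D (y - p) (a - p) / Δ
  let B : ℝ × ℝ → ℝ := fun y => D (z - p) (y - p) / Δ
  have hAaff : ∀ (c d : ℝ × ℝ) (q r : ℝ), q + r = 1 → A (q • c + r • d) = q * A c + r * A d := by
    intro c d q r h
    have hq : q = 1 - r := by linarith
    subst hq
    simp only [A, D, Prod.fst_sub, Prod.snd_sub, Prod.fst_add, Prod.snd_add, Prod.smul_fst, Prod.smul_snd,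
      smul_eq_mul]
    field_simp
    ring
  have hBaff : ∀ (c d : ℝ × ℝ) (q r : ℝ), q + r = 1 → B (q • c + r • d) = q * B c + r * B d := by
    intro c d q r h
    have hq : q = 1 - r := by linarith
    subst hq
    simp only [B, D, Prod.fst_sub, Prod.snd_sub, Prod.fst_add, Prod.snd_add, Prod.smul_fst, Prod.smul_snd,
      smul_eq_mul]
    field_simp
    ring
  have hAz : A z = 1 := div_self hΔ0
  have hBa : B a = 1 := div_self hΔ0
  have hBz : B z = 0 := by
    have : D (z - p) (z - p) = 0 := by
      simp only [D]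
      ring
    simp only [B, this, zero_div]
  have hAa : A a = 0 := by
    have : D (a - p) (a - p) = 0 := by
      simp only [D]
      ring
    simp only [A, this, zero_div]
  have hAp : A p = 0 := by
    have : D (p - p) (a - p) = 0 := by
      simp [D]
    simp only [A, this, zero_div]
  have hBp : B p = 0 := by
    have : D (z - p) (p - p) = 0 := by
      simp [D]
    simp only [B, this, zero_div]
  have hrec1 : ∀ y : ℝ × ℝ, y.1 - p.1 = A y * (z.1 - p.1) + B y * (a.1 - p.1) := by
    intro y
    simp only [A, B]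
    have h0 : (D (z - p) (a - p)) ≠ 0 := hΔ0
    rw [hΔ]
    field_simp
    simp only [D, Prod.fst_sub, Prod.snd_sub]
    ring
  have hrec2 : ∀ y : ℝ × ℝ, y.2 - p.2 = A y * (z.2 - p.2) + B y * (a.2 - p.2) := by
    intro y
    simp only [A, B]
    have h0 : (D (z - p) (a - p)) ≠ 0 := hΔ0
    rw [hΔ]
    field_simp
    simp only [D, Prod.fst_sub, Prod.snd_sub]
    ring
  have hinj : ∀ y y' : ℝ × ℝ, A y = A y' → B y = B y' → y = y' := by
    intro y y' h1 h2
    have e1 := hrec1 y
    have e2 := hrec2 y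
    have e1' := hrec1 y'
    have e2' := hrec2 y'
    rw [h1, h2] at e1 e2
    exact Prod.ext (by linarith) (by linarith)
  have hzb : z ≠ b := hza b a hbS haS (Ne.symm hab) hpb hsb hpa hsa (by rwa [segment_symm])
  have hza' : z ≠ a := hza a b haS hbS hab hpa hsa hpb hsb hzab
  have hb : A b + B b = 1 ∧ B b < 0 := by
    obtain ⟨q, r, hq, hr, hqr, hzq⟩ := hzab
    have eA := hAaff a b q r hqr
    have eB := hBaff a b q r hqr
    rw [hzq, hAz, hAa] at eA
    rw [hzq, hBz, hBa] at eB
    have hr0 : 0 < r := by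
      rcases lt_or_eq_of_le hr with h | h
      · exact h
      · exfalso
        rw [← h] at eA
        simp at eA
    have hq0 : 0 < q := by
      rcases lt_or_eq_of_le hq with h | h
      · exact h
      · exfalso
        apply hzb
        have hr1 : r = 1 := by linarith
        rw [← hzq, ← h, hr1]
        simp
    constructor
    · have : r * (A b + B b) = r * 1 := by linarith
      exact mul_left_cancel₀ hr0.ne' this
    · by_contra hcon
      have := mul_nonneg hr0.le (not_lt.mp hcon)
      linarith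
  -- the extreme point of the triangle
  set F : Finset (ℝ × ℝ) := S.filter fun y => y ≠ p ∧ 0 ≤ A y ∧ 0 ≤ B y ∧ A y + B y ≤ 1 with hF
  have hFne : F.Nonempty := ⟨a, by
    simp only [hF, Finset.mem_filter]
    exact ⟨haS, Ne.symm hpa, by rw [hAa], by rw [hBa]; norm_num, by rw [hAa, hBa]; norm_num⟩⟩
  obtain ⟨x, hxF, hxmin⟩ := Finset.exists_min_image F (fun y => B y / (A y + B y)) hFne
  have hxF' := hxF
  simp only [hF, Finset.mem_filter] at hxF'
  obtain ⟨hxS, hxp, hAx, hBx, hABx⟩ := hxF'
  have hpos : ∀ y ∈ F, 0 < A y + B y := by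
    intro y hy
    simp only [hF, Finset.mem_filter] at hy
    rcases lt_or_eq_of_le (add_nonneg hy.2.2.1 hy.2.2.2.1) with h | h
    · exact h
    · exfalso
      have h1 : A y = 0 := by linarith [hy.2.2.1, hy.2.2.2.1]
      have h2 : B y = 0 := by linarith [hy.2.2.1, hy.2.2.2.1]
      exact hy.2.1 (hinj y p (by rw [h1, hAp]) (by rw [h2, hBp]))
  have hL : ∀ y ∈ F, 0 ≤ A x * B y - B x * A y := by
    intro y hy
    have h1 := hxmin y hy
    have h2 := hpos y hy
    have h3 := hpos x hxF
    rw [div_le_div_iff₀ h3 h2] at h1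
    linarith
  have hAs : A s = 1 / t := by
    have h1 : D (s - p) (a - p) / Δ = 1 / t := by
      rw [hΔ, hDz]
      field_simp
    exact h1
  have hBs : B s = 0 := by
    have : D (z - p) (s - p) = 0 := by
      rw [hDz]
      simp only [D]
      ring
    simp only [B, this, zero_div]
  have hxs : x ≠ s := by
    rintro rfl
    rw [hAs, hBs] at hABx
    have : 1 < 1 / t := by
      rw [lt_div_iff₀ htpos]
      linarith
    linarith
  have hBx0 : 0 < B x := by
    rcases lt_or_eq_of_le hBx with h | h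
    · exact h
    exfalso
    have h1 := hS.det_ne hp hs hxS hps (Ne.symm hxp) (Ne.symm hxs)
    have h2 : D (z - p) (x - p) / Δ = 0 := h.symm
    rw [div_eq_zero_iff] at h2
    rcases h2 with h2 | h2
    · rw [hDz] at h2
      rcases mul_eq_zero.mp h2 with h3 | h3
      · exact htpos.ne' h3
      · exact h1 h3
    · exact hΔ0 h2
  have hvx : 0 < v.1 * (x.1 - p.1) + v.2 * (x.2 - p.2) := by
    rw [hrec1 x, hrec2 x]
    have e : v.1 * (A x * (z.1 - p.1) + B x * (a.1 - p.1)) + v.2 * (A x * (z.2 - p.2) + B x * (a.2 - p.2)) =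
        A x * (v.1 * (z.1 - p.1) + v.2 * (z.2 - p.2)) + B x * (v.1 * (a.1 - p.1) + v.2 * (a.2 - p.2)) := by
      ring
    rw [e]
    have e1 := mul_nonneg hAx hvz.le
    have e2 := mul_pos hBx0 hva
    linarith
  refine ⟨x, hxS, hvx, ?_⟩
  -- the claim in a form which is symmetric in `c`, `d` up to the choice of the side
  have hdet : ∀ y : ℝ × ℝ, D (x - p) (y - p) = Δ * (A x * B y - B x * A y) := by
    intro y
    have e1 := hrec1 y
    have e2 := hrec2 y
    have f1 := hrec1 x
    have f2 := hrec2 x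
    simp only [hΔ, D, Prod.fst_sub, Prod.snd_sub]
    rw [e1, e2, f1, f2]
    ring
  have core : ∀ c d : ℝ × ℝ, s(c, d) ∈ E → p ≠ c → p ≠ d → x ≠ c → x ≠ d → ∀ q r : ℝ, 0 ≤ q → 0 ≤ r → q + r = 1 →
      q • c + r • d ∈ segment ℝ p x → A x * B c - B x * A c < 0 → 0 < A x * B d - B x * A d → False := by
    intro c d hcd hpc hpd hxc hxd q r hq hr hqr hw hc hd'
    have hcdS := hE hcd
    rw [Finset.mk_mem_sym2_iff] at hcdS
    obtain ⟨hcS, hdS⟩ := hcdS
    set w : ℝ × ℝ := q • c + r • d with hwdef
    have hAw := hAaff c d q r hqr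
    have hBw := hBaff c d q r hqr
    rw [← hwdef] at hAw hBw
    obtain ⟨q', τ, hq', hτ, hqτ, hw'⟩ := hw
    have hAw' := hAaff p x q' τ hqτ
    have hBw' := hBaff p x q' τ hqτ
    rw [hw', hAp] at hAw'
    rw [hw', hBp] at hBw'
    have hwcd : w ∈ segment ℝ c d := ⟨q, r, hq, hr, hqr, rfl⟩
    have hcdne : c ≠ d := by
      rintro rfl
      linarith
    have hwp : w ≠ p := by
      intro h
      have := hS.det_ne hcS hdS hp hcdne (Ne.symm hpc) (Ne.symm hpd)
      apply this
      rw [← h]
      exact det_segment hwcd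
    have hτ0 : 0 < τ := by
      rcases lt_or_eq_of_le hτ with h | h
      · exact h
      · exfalso
        apply hwp
        have : q' = 1 := by linarith
        rw [← hw', ← h, this]
        simp
    have hτ1 : τ ≤ 1 := by linarith
    have hAw0 : 0 ≤ A w := by
      rw [hAw']
      have := mul_nonneg hτ hAx
      linarith
    have hBw0 : 0 < B w := by
      rw [hBw']
      have := mul_pos hτ0 hBx0
      linarith
    have hABw : A w + B w = τ * (A x + B x) := by
      rw [hAw', hBw']
      ring
    have hABw1 : A w + B w ≤ 1 := by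
      rw [hABw]
      exact mul_le_one₀ hτ1 (hpos x hxF).le hABx
    have hLw : A x * B w - B x * A w = 0 := by
      rw [hAw', hBw']
      ring
    -- `f ≠ g`
    have hfg : s(a, b) ≠ s(c, d) := by
      intro h
      have hw1 : A w + B w = 1 := by
        rw [Sym2.eq_iff] at h
        rcases h with ⟨rfl, rfl⟩ | ⟨rfl, rfl⟩
        · rw [hAw, hBw, hAa, hBa]
          linear_combination r * hb.1 + hqr
        · rw [hAw, hBw, hAa, hBa]
          linear_combination q * hb.1 + hqr
      have hx1 : A x + B x = 1 := by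
        rw [hABw] at hw1
        have h1 := mul_le_mul_of_nonneg_right hτ1 (hpos x hxF).le
        linarith
      have hxa : x ≠ a := by
        rintro rfl
        rw [Sym2.eq_iff] at h
        rcases h with ⟨h, _⟩ | ⟨h, _⟩
        · exact hxc h
        · exact hxd h
      have hxb : x ≠ b := by
        rintro rfl
        rw [Sym2.eq_iff] at h
        rcases h with ⟨_, h⟩ | ⟨_, h⟩
        · exact hxd h
        · exact hxc h
      have := hS.det_ne haS hbS hxS hab (Ne.symm hxa) (Ne.symm hxb)
      apply this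
      have e1 := hrec1 b
      have e2 := hrec2 b
      have f1 := hrec1 x
      have f2 := hrec2 x
      have ha1 : A b = 1 - B b := by linarith [hb.1]
      have ha2 : A x = 1 - B x := by linarith
      simp only [D, Prod.fst_sub, Prod.snd_sub]
      have g1 : b.1 - a.1 = (1 - B b) * (z.1 - a.1) := by
        rw [ha1] at e1
        linarith
      have g2 : b.2 - a.2 = (1 - B b) * (z.2 - a.2) := by
        rw [ha1] at e2
        linarith
      have g3 : x.1 - a.1 = (1 - B x) * (z.1 - a.1) := by
        rw [ha2] at f1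
        linarith
      have g4 : x.2 - a.2 = (1 - B x) * (z.2 - a.2) := by
        rw [ha2] at f2
        linarith
      rw [g1, g2, g3, g4]
      ring
    -- points between `w` and `c`
    have hbetween : ∀ l : ℝ, 0 ≤ l → l ≤ 1 → (1 - l) • w + l • c ∈ segment ℝ c d ∧
        A ((1 - l) • w + l • c) = (1 - l) * A w + l * A c ∧ B ((1 - l) • w + l • c) = (1 - l) * B w + l * B c := by
      intro l hl0 hl1
      refine ⟨?_, hAaff _ _ _ _ (by ring), hBaff _ _ _ _ (by ring)⟩
      exact (convex_segment c d) hwcd (left_mem_segment ℝ c d) (by linarith) hl0 (by ring)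
    -- a point on the segment between `z` and `a`
    have hza_seg : ∀ u : ℝ × ℝ, A u + B u = 1 → 0 ≤ B u → 0 ≤ A u → u ∈ segment ℝ a b := by
      intro u h1 h2 h3
      have hu : u = A u • z + B u • a := by
        apply hinj
        · rw [hAaff _ _ _ _ h1, hAz, hAa]
          ring
        · rw [hBaff _ _ _ _ h1, hBz, hBa]
          ring
      rw [hu]
      exact (convex_segment a b) hzab (left_mem_segment ℝ a b) h3 h2 h1
    have hcontra : ∀ l : ℝ, 0 ≤ l → l < 1 → (1 - l) * (A w + B w) + l * (A c + B c) = 1 →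
        0 ≤ (1 - l) * B w + l * B c → False := by
      intro l hl0 hl1 h1 h2
      obtain ⟨hu1, hu2, hu3⟩ := hbetween l hl0 hl1.le
      set u := (1 - l) • w + l • c with hu
      have hLu : A x * B u - B x * A u ≤ 0 := by
        have : A x * B u - B x * A u = (1 - l) * (A x * B w - B x * A w) + l * (A x * B c - B x * A c) := by
          rw [hu2, hu3]
          ring
        rw [this, hLw]
        have h3 := mul_nonneg hl0 (neg_pos.mpr hc).le
        linarith
      have hsum : A u + B u = 1 := by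
        rw [hu2, hu3]
        linarith
      have hBu : 0 ≤ B u := by
        rw [hu3]
        exact h2
      have hAu : 0 ≤ A u := by
        by_contra hcon
        have h3 : 0 ≤ A x * B u := mul_nonneg hAx hBu
        have h4 : B x * A u < 0 := mul_neg_of_pos_of_neg hBx0 (not_le.mp hcon)
        linarith
      have hmeet := meet hS hE hd hnc habE hcd hfg (hza_seg u hsum hBu hAu) hu1
      rcases hmeet.2 with h | h
      · -- `u = c` is impossible, since then `w = c`
        have e1 : (1 - l) * (A w - A c) = 0 := by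
          rw [h] at hu2
          linarith
        have e2 : (1 - l) * (B w - B c) = 0 := by
          rw [h] at hu3
          linarith
        have e3 : A w = A c := by
          rcases mul_eq_zero.mp e1 with h | h
          · linarith
          · linarith
        have e4 : B w = B c := by
          rcases mul_eq_zero.mp e2 with h | h
          · linarith
          · linarith
        rw [← e3, ← e4] at hc
        linarith
      · rw [h] at hLu
        linarith
    by_cases hcF : c ∈ F
    · have := hL c hcF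
      linarith
    simp only [hF, Finset.mem_filter, not_and, not_le] at hcF
    have hcF' := hcF hcS (Ne.symm hpc)
    by_cases hBc : 0 ≤ B c
    · have hAc : 0 ≤ A c := by
        by_contra hcon
        have h3 : 0 ≤ A x * B c := mul_nonneg hAx hBc
        have h4 : B x * A c < 0 := mul_neg_of_pos_of_neg hBx0 (not_le.mp hcon)
        linarith
      have hABc := hcF' hAc hBc
      obtain ⟨l, hl0, hl1, hl⟩ := exists_zero (f0 := 1 - (A w + B w)) (f1 := 1 - (A c + B c)) (by linarith)
        (by linarith)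
      refine hcontra l hl0 hl1 (by linarith) ?_
      have h1 := mul_nonneg (sub_nonneg.mpr hl1.le) hBw0.le
      have h2 := mul_nonneg hl0 hBc
      linarith
    · have hBc' := not_le.mp hBc
      obtain ⟨l, hl0, hl1, hl⟩ := exists_zero hBw0.le hBc'
      obtain ⟨hy1, hy2, hy3⟩ := hbetween l hl0 hl1.le
      set y := (1 - l) • w + l • c with hy
      have hBy : B y = 0 := by rw [hy3, hl]
      have hlpos : 0 < l := by
        rcases lt_or_eq_of_le hl0 with h | h
        · exact h
        · exfalso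
          rw [← h] at hl
          simp at hl
          linarith
      have hLy : A x * B y - B x * A y < 0 := by
        have : A x * B y - B x * A y = (1 - l) * (A x * B w - B x * A w) + l * (A x * B c - B x * A c) := by
          rw [hy2, hy3]
          ring
        rw [this, hLw]
        have h3 := mul_pos hlpos (neg_pos.mpr hc)
        linarith
      have hAy : 0 < A y := by
        rw [hBy] at hLy
        by_contra hcon
        have : 0 ≤ B x * (-A y) := mul_nonneg hBx0.le (by linarith)
        linarith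
      by_cases hAy1 : A y ≤ 1
      · -- the edge meets the segment `p s` between `p` and `z`
        have hyline : y = line (A y * t) := by
          have e1 := hrec1 y
          have e2 := hrec2 y
          rw [hBy, hz1] at e1
          rw [hBy, hz2] at e2
          refine Prod.ext ?_ ?_
          · simp only [line, Prod.fst_add, Prod.smul_fst, Prod.fst_sub, smul_eq_mul]
            linarith
          · simp only [line, Prod.snd_add, Prod.smul_snd, Prod.snd_sub, smul_eq_mul]
            linarith
        have hsc : s ≠ c := by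
          rintro rfl
          rw [hBs] at hBc'
          exact lt_irrefl _ hBc'
        have hsd : s ≠ d := by
          rintro rfl
          rw [hBs, hAs] at hd'
          have : 0 < B x * (1 / t) := by positivity
          linarith
        have hle := hmin c d hcd hpc hpd hsc hsd (A y * t) (mul_nonneg hAy.le htpos.le)
          (mul_le_one₀ hAy1 htpos.le htlt.le) (by rw [← hyline]; exact hy1)
        have hAy2 : A y = 1 := by
          have : 1 ≤ A y := by
            by_contra hcon
            have := mul_lt_mul_of_pos_right (not_le.mp hcon) htpos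
            linarith
          linarith
        have hyz : y = z := hinj _ _ (by rw [hAy2, hAz]) (by rw [hBy, hBz])
        have hmeet := meet hS hE hd hnc habE hcd hfg hzab (by rw [← hyz]; exact hy1)
        rcases hmeet.1 with h | h
        · exact hza' h
        · exact hzb h
      · -- the edge meets the segment between `z` and `a`
        have hAy1' := not_le.mp hAy1
        obtain ⟨m, hm0, hm1, hm⟩ := exists_zero (f0 := 1 - (A w + B w)) (f1 := 1 - (A y + B y)) (by linarith)
          (by rw [hBy]; linarith)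
        refine hcontra (m * l) (mul_nonneg hm0 hl0)
          (lt_of_le_of_lt (mul_le_of_le_one_left hl0 hm1.le) hl1) ?_ ?_
        · rw [hy2, hy3] at hm
          linarith
        · have e1 : (1 - m * l) * B w + m * l * B c = (1 - m) * B w + m * ((1 - l) * B w + l * B c) := by ring
          rw [e1, hl]
          have := mul_nonneg (sub_nonneg.mpr hm1.le) hBw0.le
          linarith
  intro c d hcd hpc hpd hxc hxd
  rw [Set.disjoint_left]
  intro w hw1 hw2
  have hcdS := hE hcd
  rw [Finset.mk_mem_sym2_iff] at hcdS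
  obtain ⟨hcS, hdS⟩ := hcdS
  have hLc : A x * B c - B x * A c ≠ 0 := by
    intro h
    apply hS.det_ne hp hxS hcS (Ne.symm hxp) hpc hxc
    rw [hdet, h, mul_zero]
  have hLd : A x * B d - B x * A d ≠ 0 := by
    intro h
    apply hS.det_ne hp hxS hdS (Ne.symm hxp) hpd hxd
    rw [hdet, h, mul_zero]
  obtain ⟨q, r, hq, hr, hqr, rfl⟩ := hw2
  have hAw := hAaff c d q r hqr
  have hBw := hBaff c d q r hqr
  have hLw : A x * B (q • c + r • d) - B x * A (q • c + r • d) = 0 := by
    have h1 : D (x - p) (q • c + r • d - p) = 0 := det_segment hw1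
    rw [hdet] at h1
    rcases mul_eq_zero.mp h1 with h | h
    · exact absurd h hΔ0
    · exact h
  have hsum : q * (A x * B c - B x * A c) + r * (A x * B d - B x * A d) = 0 := by
    rw [hAw, hBw] at hLw
    linarith
  rcases lt_or_gt_of_ne hLc with h1 | h1
  · rcases lt_or_gt_of_ne hLd with h2 | h2
    · rcases lt_or_eq_of_le hq with h3 | h3
      · have h4 := mul_pos h3 (neg_pos.mpr h1)
        have h5 := mul_nonneg hr (neg_pos.mpr h2).le
        linarith
      · have : r = 1 := by linarith
        rw [← h3, this] at hsum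
        linarith
    · exact core c d hcd hpc hpd hxc hxd q r hq hr hqr hw1 h1 h2
  · rcases lt_or_gt_of_ne hLd with h2 | h2
    · refine core d c (by rwa [Sym2.eq_swap]) hpd hpc hxd hxc r q hr hq (by linarith) ?_ h2 h1
      rwa [add_comm]
    · rcases lt_or_eq_of_le hq with h3 | h3
      · have h4 := mul_pos h3 h1
        have h5 := mul_nonneg hr (le_of_lt h2)
        linarith
      · have : r = 1 := by linarith
        rw [← h3, this] at hsum
        linarith

end Pool.Agent.Work.MP_02cc39_co
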