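import Pool.Agent.Work.MP_02cc39_co.Shallow

set_option autoImplicit false

namespace Pool.Agent.Work.MP_02cc39_co

open Classical

/-- the points `b` of `S` such that `p` becomes a vertex of the convex hull after the deletion of `b` -/
noncomputable def guards (S : Finset (ℝ × ℝ)) (p : ℝ × ℝ) : Finset (ℝ × ℝ) :=
  S.filter fun b => p ∉ convexHull ℝ ((S : Set (ℝ × ℝ)) \ {p, b})

theorem guard_sep {S : Finset (ℝ × ℝ)} {p b : ℝ × ℝ} (hb : b ∈ guards S p) :
    ∃ v : ℝ × ℝ, ∀ q ∈ S, q ≠ p → q ≠ b → 0 < v.1 * (q.1 - p.1) + v.2 * (q.2 - p.2) := by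
  obtain ⟨v, hv⟩ := separate (S.finite_toSet.subset Set.sdiff_subset) (Finset.mem_filter.mp hb).2
  exact ⟨v, fun q hq hqp hqb => hv q ⟨hq, by simp [hqp, hqb]⟩⟩

/-- the direction of a guard -/
theorem guard_half {S : Finset (ℝ × ℝ)} (hS : GenPos S) {p b : ℝ × ℝ} (hp : p ∈ inner S) (hb : b ∈ guards S p) :
    ∃ v : ℝ × ℝ, (∀ q ∈ S, q ≠ p → q ≠ b → 0 < v.1 * (q.1 - p.1) + v.2 * (q.2 - p.2)) ∧ half S p (-v) = {b} := by
  obtain ⟨v, hv⟩ := guard_sep hb
  refine ⟨v, hv, ?_⟩
  have hsub : half S p (-v) ⊆ {b} := by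
    intro q hq
    rw [mem_half] at hq
    rw [Finset.mem_singleton]
    by_contra hqb
    have hqp : q ≠ p := by
      rintro rfl
      simp at hq
    have h1 := hv q hq.1 hqp hqb
    have h2 := hq.2
    simp only [Prod.fst_neg, Prod.snd_neg] at h2
    linarith
  have hv0 : -v ≠ 0 := by
    intro h0
    have hv1 : v = 0 := by simpa using h0
    have hp' := (Finset.mem_filter.mp hp).2
    have hsub2 : ((S : Set (ℝ × ℝ)) \ {p}) ⊆ {b} := by
      intro q hq
      rw [Set.mem_singleton_iff]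
      by_contra hqb
      have h1 := hv q hq.1 hq.2 hqb
      rw [hv1] at h1
      simp at h1
    have h1 := convexHull_mono hsub2 hp'
    rw [convexHull_singleton, Set.mem_singleton_iff] at h1
    have h2 := (Finset.mem_filter.mp hb).2
    rw [← h1] at h2
    apply h2
    simpa using hp'
  have hne := half_nonempty hS hp hv0
  exact (Finset.Nonempty.subset_singleton_iff hne).mp hsub

theorem guard_mem {S : Finset (ℝ × ℝ)} (hS : GenPos S) {T : Finset (Sym2 (ℝ × ℝ))} (hT : T ∈ Triang S)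
    {p b : ℝ × ℝ} (hp : p ∈ inner S) (hb : b ∈ guards S p) : s(p, b) ∈ T := by
  obtain ⟨v, _, hv⟩ := guard_half hS hp hb
  obtain ⟨x, hx, hxT⟩ := exists_edge hS hT (v := -v) (Finset.mem_filter.mp hp).1 (by
    rw [hv]
    exact Finset.singleton_nonempty _)
  rw [hv, Finset.mem_singleton] at hx
  rwa [← hx]

theorem guard_not_inner {S : Finset (ℝ × ℝ)} (hS : GenPos S) {p b : ℝ × ℝ} (hp : p ∈ inner S)
    (hb : b ∈ guards S p) : b ∉ inner S := by
  intro hbi
  obtain ⟨v, hv, hv'⟩ := guard_half hS hp hb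
  have hbh : b ∈ half S p (-v) := by
    rw [hv']
    exact Finset.mem_singleton_self _
  rw [mem_half] at hbh
  have hv0 : -v ≠ 0 := by
    intro h
    rw [h] at hbh
    simp at hbh
  obtain ⟨q, hq⟩ := half_nonempty hS hbi hv0
  rw [mem_half] at hq
  have hqb : q ≠ b := by
    rintro rfl
    simp at hq
  have h2 := hbh.2
  have h3 := hq.2
  simp only [Prod.fst_neg, Prod.snd_neg] at h2 h3
  by_cases hqp : q = p
  · rw [hqp] at h3
    linarith
  · have h4 := hv q hq.1 hqp hqb
    linarith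

/-- for sets all of whose interior points have guards -/
theorem product {S : Finset (ℝ × ℝ)} (hS : GenPos S) :
    (Triang S).ncard * ∏ p ∈ inner S, (guards S p).card ≤ (PPT S).ncard := by
  set Ch : Finset ((p : ℝ × ℝ) → p ∈ inner S → ℝ × ℝ) := (inner S).pi fun p => guards S p with hCh
  set R : ((p : ℝ × ℝ) → p ∈ inner S → ℝ × ℝ) → Sym2 (ℝ × ℝ) → Prop :=
    fun β e => ∃ (p : ℝ × ℝ) (hp : p ∈ inner S), e = s(p, β p hp) with hR
  have hG : ∀ T ∈ Triang S, ∀ β ∈ Ch, Pointed S (T.filter fun e => ¬ R β e) := by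
    intro T hT β hβ p hp
    by_cases hpI : p ∈ inner S
    · obtain ⟨v, hv⟩ := guard_sep ((Finset.mem_pi.mp hβ) p hpI)
      refine ⟨v, fun q hq => ?_⟩
      rw [Finset.mem_filter] at hq
      have hqS : q ∈ S := by
        have := hT.1 hq.1
        rw [Finset.mk_mem_sym2_iff] at this
        exact this.2
      have hqp : q ≠ p := by
        rintro rfl
        exact hT.2.1 _ hq.1 (by simp)
      have hqb : q ≠ β p hpI := by
        intro h
        apply hq.2
        exact ⟨p, hpI, by rw [h]⟩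
      exact hv q hqS hqp hqb
    · have hp' : p ∉ convexHull ℝ ((S : Set (ℝ × ℝ)) \ {p}) := fun h => hpI (Finset.mem_filter.mpr ⟨hp, h⟩)
      obtain ⟨v, hv⟩ := separate (S.finite_toSet.subset Set.sdiff_subset) hp'
      refine ⟨v, fun q hq => ?_⟩
      rw [Finset.mem_filter] at hq
      have hqS : q ∈ S := by
        have := hT.1 hq.1
        rw [Finset.mk_mem_sym2_iff] at this
        exact this.2
      have hqp : q ≠ p := by
        rintro rfl
        exact hT.2.1 _ hq.1 (by simp)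
      exact hv q ⟨hqS, hqp⟩
  have hM : ∀ x : Finset (Sym2 (ℝ × ℝ)) × ((p : ℝ × ℝ) → p ∈ inner S → ℝ × ℝ),
      ∃ M : Finset (Sym2 (ℝ × ℝ)), x.1 ∈ Triang S → x.2 ∈ Ch →
      M ∈ PPT S ∧ (x.1.filter fun e => ¬ R x.2 e) ⊆ M := by
    rintro ⟨T, β⟩
    by_cases hT : T ∈ Triang S
    · by_cases hβ : β ∈ Ch
      · obtain ⟨M, h1, h2⟩ := exists_ppt (S := S) (G := T.filter fun e => ¬ R β e)
          ((Finset.filter_subset _ _).trans hT.1) (fun e he => hT.2.1 e (Finset.mem_filter.mp he).1)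
          (nonCrossing_mono (Finset.filter_subset _ _) hT.2.2.1) (hG T hT β hβ)
        exact ⟨M, fun _ _ => ⟨h1, h2⟩⟩
      · exact ⟨∅, fun _ h => absurd h hβ⟩
    · exact ⟨∅, fun h => absurd h hT⟩
  choose M hM using hM
  have hcard : ((triang_finite S).toFinset ×ˢ Ch).card = (Triang S).ncard * ∏ p ∈ inner S, (guards S p).card := by
    rw [Finset.card_product, hCh, Finset.card_pi, ← Set.ncard_eq_toFinset_card (Triang S) (triang_finite S)]
  rw [← hcard, Set.ncard_eq_toFinset_card _ (ppt_finite S)]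
  refine Finset.card_le_card_of_injOn M ?_ ?_
  · rintro ⟨T, β⟩ hx
    rw [Finset.mem_coe, Finset.mem_product, Set.Finite.mem_toFinset] at hx
    rw [Finset.mem_coe, Set.Finite.mem_toFinset]
    exact (hM (T, β) hx.1 hx.2).1
  · rintro ⟨T1, β1⟩ hx1 ⟨T2, β2⟩ hx2 hMM
    rw [Finset.mem_coe, Finset.mem_product, Set.Finite.mem_toFinset] at hx1 hx2
    obtain ⟨hT1, hβ1⟩ := hx1
    obtain ⟨hT2, hβ2⟩ := hx2
    have m1 := hM (T1, β1) hT1 hβ1
    have m2 := hM (T2, β2) hT2 hβ2
    simp only at hT1 hβ1 hT2 hβ2 m1 m2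
    rw [← hMM] at m2
    set M0 := M (T1, β1) with hM0
    -- which edges at an interior point are deleted
    have hdel : ∀ β ∈ Ch, ∀ p (hp : p ∈ inner S), ∀ x : ℝ × ℝ, R β s(p, x) → x = β p hp := by
      rintro β hβ p hp x ⟨q, hq, he⟩
      rw [Sym2.eq_iff] at he
      rcases he with ⟨rfl, h⟩ | ⟨h, _⟩
      · exact h
      · exfalso
        have := guard_not_inner hS hq ((Finset.mem_pi.mp hβ) q hq)
        rw [← h] at this
        exact this hp
    have hββ : β1 = β2 := by
      funext p hp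
      by_contra hne
      have g1 := (Finset.mem_pi.mp hβ1) p hp
      have g2 := (Finset.mem_pi.mp hβ2) p hp
      have e1 : s(p, β1 p hp) ∈ M0 := by
        apply m2.2
        rw [Finset.mem_filter]
        refine ⟨guard_mem hS hT2 hp g1, fun h => hne (hdel β2 hβ2 p hp _ h)⟩
      have hpS : p ∈ S := (Finset.mem_filter.mp hp).1
      obtain ⟨v, hv⟩ := m1.1.2.2.2.1 p hpS
      have hv0 : -v ≠ 0 := by
        intro h0
        have h1 := hv _ e1
        have h2 : v = 0 := by simpa using h0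
        rw [h2] at h1
        simp at h1
      obtain ⟨x, hx, hxT⟩ := exists_edge hS hT1 hpS (half_nonempty hS hp hv0)
      rw [mem_half] at hx
      have h2 := hx.2
      simp only [Prod.fst_neg, Prod.snd_neg] at h2
      have hxM : s(p, x) ∈ M0 := by
        by_cases hxb : x = β1 p hp
        · rw [hxb]
          exact e1
        · apply m1.2
          rw [Finset.mem_filter]
          exact ⟨hxT, fun h => hxb (hdel β1 hβ1 p hp _ h)⟩
      have h4 := hv _ hxM
      linarith
    subst hββ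
    have hR12 : ∀ T ∈ Triang S, ∀ e, R β1 e → e ∈ T := by
      rintro T hT e ⟨p, hp, rfl⟩
      exact guard_mem hS hT hp ((Finset.mem_pi.mp hβ1) p hp)
    have hsub : ∀ T T' : Finset (Sym2 (ℝ × ℝ)), T ∈ Triang S → T' ∈ Triang S →
        (T.filter fun e => ¬ R β1 e) ⊆ M0 → (T'.filter fun e => ¬ R β1 e) ⊆ M0 →
        ∀ a b c d : ℝ × ℝ, s(a, b) ∈ T → s(c, d) ∈ T' →
        a ≠ c → a ≠ d → b ≠ c → b ≠ d → Disjoint (segment ℝ a b) (segment ℝ c d) := by
      intro T T' hT hT' hs hs' a b c d h1 h2 hac had hbc hbd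
      by_cases hr1 : R β1 s(a, b)
      · exact hT'.2.2.1 a b c d (hR12 T' hT' _ hr1) h2 hac had hbc hbd
      by_cases hr2 : R β1 s(c, d)
      · exact hT.2.2.1 a b c d h1 (hR12 T hT _ hr2) hac had hbc hbd
      exact m1.1.2.2.1 a b c d (hs (Finset.mem_filter.mpr ⟨h1, hr1⟩)) (hs' (Finset.mem_filter.mpr ⟨h2, hr2⟩))
        hac had hbc hbd
    have hnc : NonCrossing (T1 ∪ T2) := by
      intro a b c d h1 h2 hac had hbc hbd
      rw [Finset.mem_union] at h1 h2
      rcases h1 with h1 | h1 <;> rcases h2 with h2 | h2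
      · exact hT1.2.2.1 a b c d h1 h2 hac had hbc hbd
      · exact hsub T1 T2 hT1 hT2 m1.2 m2.2 a b c d h1 h2 hac had hbc hbd
      · exact hsub T2 T1 hT2 hT1 m2.2 m1.2 a b c d h1 h2 hac had hbc hbd
      · exact hT2.2.2.1 a b c d h1 h2 hac had hbc hbd
    have hle : ∀ T T' : Finset (Sym2 (ℝ × ℝ)), T ∈ Triang S → T' ∈ Triang S → NonCrossing (T ∪ T') → T' ⊆ T := by
      intro T T' hT hT' h e he
      by_contra hcon
      refine hT.2.2.2 e (hT'.1 he) (hT'.2.1 e he) hcon (nonCrossing_mono ?_ h)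
      intro e' he'
      rw [Finset.mem_insert] at he'
      rw [Finset.mem_union]
      rcases he' with rfl | he'
      · exact Or.inr he
      · exact Or.inl he'
    have hTT : T1 = T2 :=
      Finset.Subset.antisymm (hle T2 T1 hT2 hT1 (by rwa [Finset.union_comm])) (hle T1 T2 hT1 hT2 hnc)
    rw [hTT]

/-- the inequality with the equality case -/
theorem product_eq {S : Finset (ℝ × ℝ)} (hS : GenPos S) (h : ∀ p ∈ inner S, (guards S p).Nonempty) :
    (Triang S).ncard * ∏ p ∈ inner S, (guards S p).card ≤ (PPT S).ncard ∧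
      ((Triang S).ncard = (PPT S).ncard ↔ inner S = ∅) := by
  refine ⟨product hS, (shallow hS ?_).2⟩
  intro p hp
  obtain ⟨b, hb⟩ := h p hp
  exact ⟨b, (Finset.mem_filter.mp hb).2⟩

end Pool.Agent.Work.MP_02cc39_co
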