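import Pool.Agent.Work.MP_02cc39_co.Strict

set_option autoImplicit false

namespace Pool.Agent.Work.MP_02cc39_co

open Classical

/-- in convex position the two sets are the same -/
theorem convex_case {S : Finset (ℝ × ℝ)} (h : inner S = ∅) : Triang S = PPT S := by
  have hpt : ∀ E : Finset (Sym2 (ℝ × ℝ)), E ⊆ S.sym2 → (∀ e ∈ E, ¬ e.IsDiag) → Pointed S E := by
    intro E hE hd p hp
    have hp' : p ∉ convexHull ℝ ((S : Set (ℝ × ℝ)) \ {p}) := by
      intro hcon
      have : p ∈ inner S := Finset.mem_filter.mpr ⟨hp, hcon⟩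
      rw [h] at this
      exact Finset.notMem_empty _ this
    obtain ⟨v, hv⟩ := separate (S.finite_toSet.subset Set.sdiff_subset) hp'
    refine ⟨v, fun q hq => ?_⟩
    have hqS : q ∈ S := by
      have := hE hq
      rw [Finset.mk_mem_sym2_iff] at this
      exact this.2
    have hqp : q ≠ p := by
      rintro rfl
      exact hd _ hq (by simp)
    exact hv q ⟨hqS, hqp⟩
  have hins : ∀ E : Finset (Sym2 (ℝ × ℝ)), E ⊆ S.sym2 → (∀ e ∈ E, ¬ e.IsDiag) → ∀ e ∈ S.sym2, ¬ e.IsDiag →
      Pointed S (insert e E) := by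
    intro E hE hd e he hed
    refine hpt _ (Finset.insert_subset he hE) ?_
    intro e' he'
    rw [Finset.mem_insert] at he'
    rcases he' with rfl | he'
    · exact hed
    · exact hd e' he'
  ext E
  constructor
  · rintro ⟨h1, h2, h3, h4⟩
    exact ⟨h1, h2, h3, hpt E h1 h2, fun e he hed heE hcon => h4 e he hed heE hcon.1⟩
  · rintro ⟨h1, h2, h3, _, h5⟩
    exact ⟨h1, h2, h3, fun e he hed heE hcon => h5 e he hed heE ⟨hcon, hins E h1 h2 e he hed⟩⟩

theorem shallow {S : Finset (ℝ × ℝ)} (hS : GenPos S)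
    (h : ∀ p ∈ inner S, ∃ b : ℝ × ℝ, p ∉ convexHull ℝ ((S : Set (ℝ × ℝ)) \ {p, b})) :
    (Triang S).ncard ≤ (PPT S).ncard ∧ ((Triang S).ncard = (PPT S).ncard ↔ inner S = ∅) := by
  have hd : ∀ p ∈ inner S, depth S p ≤ 1 := by
    intro p hp
    obtain ⟨b, hb⟩ := h p hp
    refine depth_le_one ?_ hb
    by_contra hcon
    push Not at hcon
    have hp' := (Finset.mem_filter.mp hp).2
    have hsub : ((S : Set (ℝ × ℝ)) \ {p}) ⊆ {b} := by
      intro q hq
      exact hcon q hq.1 hq.2
    have h1 := convexHull_mono hsub hp'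
    rw [convexHull_singleton, Set.mem_singleton_iff] at h1
    rw [← h1] at hb
    apply hb
    simpa using hp'
  by_cases hne : inner S = ∅
  · rw [convex_case hne]
    simp [hne]
  · have := strict hS (Finset.nonempty_iff_ne_empty.mpr hne) hd
    exact ⟨this.le, ⟨fun h => absurd h this.ne, fun h => absurd h hne⟩⟩

end Pool.Agent.Work.MP_02cc39_co
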