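import Pool.Agent.Work.MP_02cc39_co.Depth

set_option autoImplicit false

namespace Pool.Agent.Work.MP_02cc39_co

open Classical

theorem pointed_single (S : Finset (ℝ × ℝ)) {p b : ℝ × ℝ} (hpb : p ≠ b) : Pointed S {s(p, b)} := by
  have hpos : ∀ x y : ℝ × ℝ, x ≠ y → 0 < (y.1 - x.1) * (y.1 - x.1) + (y.2 - x.2) * (y.2 - x.2) := by
    intro x y hxy
    have h1 : y.1 - x.1 ≠ 0 ∨ y.2 - x.2 ≠ 0 := by
      by_contra hcon
      push Not at hcon
      exact hxy (Prod.ext (by linarith [hcon.1]) (by linarith [hcon.2]))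
    rcases h1 with h1 | h1
    · have := mul_self_pos.mpr h1
      nlinarith [mul_self_nonneg (y.2 - x.2)]
    · have := mul_self_pos.mpr h1
      nlinarith [mul_self_nonneg (y.1 - x.1)]
  intro x _
  by_cases hxp : x = p
  · subst hxp
    refine ⟨(b.1 - x.1, b.2 - x.2), fun q hq => ?_⟩
    rw [Finset.mem_singleton, Sym2.eq_iff] at hq
    rcases hq with ⟨_, rfl⟩ | ⟨h, _⟩
    · exact hpos x q hpb
    · exact absurd h hpb
  · refine ⟨(p.1 - x.1, p.2 - x.2), fun q hq => ?_⟩
    rw [Finset.mem_singleton, Sym2.eq_iff] at hq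
    rcases hq with ⟨h, _⟩ | ⟨_, rfl⟩
    · exact absurd h hxp
    · exact hpos x q hxp

theorem half_nonempty {S : Finset (ℝ × ℝ)} (hS : GenPos S) {p v : ℝ × ℝ} (hp : p ∈ inner S) (hv : v ≠ 0) :
    (half S p v).Nonempty := by
  obtain ⟨v', h1, h2⟩ := tilt hS (Finset.mem_filter.mp hp).1 hv
  exact (inner_half hp h1).mono h2

/-- if every interior point has depth one and there is an interior point, then the inequality is strict -/
theorem strict {S : Finset (ℝ × ℝ)} (hS : GenPos S) (hne : (inner S).Nonempty) (hd : ∀ p ∈ inner S, depth S p ≤ 1) :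
    (Triang S).ncard < (PPT S).ncard := by
  -- the half planes
  have hex : ∀ p : ℝ × ℝ, ∃ v b : ℝ × ℝ, p ∈ inner S →
      (∀ q ∈ S, q ≠ p → v.1 * (q.1 - p.1) + v.2 * (q.2 - p.2) ≠ 0) ∧ half S p v = {b} := by
    intro p
    by_cases hp : p ∈ inner S
    · have hpS : p ∈ S := (Finset.mem_filter.mp hp).1
      have hne : {k | ∃ v : ℝ × ℝ, v ≠ 0 ∧ (half S p v).card = k}.Nonempty :=
        ⟨_, (1, 0), by simp, rfl⟩
      obtain ⟨v, hv0, hv⟩ := Nat.sInf_mem hne
      obtain ⟨v', h1, h2⟩ := tilt hS hpS hv0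
      have h3 : (half S p v').card ≤ 1 := by
        calc (half S p v').card ≤ (half S p v).card := Finset.card_le_card h2
          _ = depth S p := hv
          _ ≤ 1 := hd p hp
      have h4 := Finset.card_pos.mpr (inner_half hp h1)
      obtain ⟨b, hb⟩ := Finset.card_eq_one.mp (le_antisymm h3 h4)
      exact ⟨v', b, fun _ => ⟨h1, hb⟩⟩
    · exact ⟨0, 0, fun h => absurd h hp⟩
  choose vv bb hvb using hex
  have hbS : ∀ p ∈ inner S, bb p ∈ S ∧ 0 < (vv p).1 * ((bb p).1 - p.1) + (vv p).2 * ((bb p).2 - p.2) := by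
    intro p hp
    have : bb p ∈ half S p (vv p) := by
      rw [(hvb p hp).2]
      exact Finset.mem_singleton_self _
    rwa [mem_half] at this
  have hother : ∀ p ∈ inner S, ∀ q ∈ S, q ≠ p → q ≠ bb p →
      (vv p).1 * (q.1 - p.1) + (vv p).2 * (q.2 - p.2) < 0 := by
    intro p hp q hq hqp hqb
    have h1 : ¬ (0 < (vv p).1 * (q.1 - p.1) + (vv p).2 * (q.2 - p.2)) := by
      intro h
      have : q ∈ half S p (vv p) := mem_half.mpr ⟨hq, h⟩
      rw [(hvb p hp).2, Finset.mem_singleton] at this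
      exact hqb this
    exact lt_of_le_of_ne (not_lt.mp h1) ((hvb p hp).1 q hq hqp)
  -- the deleted edges end at vertices of the convex hull
  have hbinner : ∀ p ∈ inner S, bb p ∉ inner S := by
    intro p hp hb
    have h1 := half_nonempty hS hb (v := vv p) (by
      intro h
      have := (hbS p hp).2
      rw [h] at this
      simp at this)
    obtain ⟨q, hq⟩ := h1
    rw [mem_half] at hq
    have hqb : q ≠ bb p := by
      rintro rfl
      simp at hq
    have h2 := (hbS p hp).2
    have h3 := hq.2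
    by_cases hqp : q = p
    · rw [hqp] at h3
      linarith
    · have h4 := hother p hp q hq.1 hqp hqb
      linarith
  have hmem : ∀ T ∈ Triang S, ∀ p ∈ inner S, s(p, bb p) ∈ T := by
    intro T hT p hp
    obtain ⟨x, hx, hxT⟩ := exists_edge hS hT (v := vv p) (Finset.mem_filter.mp hp).1 (by
      rw [(hvb p hp).2]
      exact Finset.singleton_nonempty _)
    rw [(hvb p hp).2, Finset.mem_singleton] at hx
    rwa [← hx]
  set R : Sym2 (ℝ × ℝ) → Prop := fun e => ∃ p ∈ inner S, e = s(p, bb p) with hR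
  have hG : ∀ T ∈ Triang S, Pointed S (T.filter fun e => ¬ R e) := by
    intro T hT p hp
    by_cases hpI : p ∈ inner S
    · refine ⟨-(vv p), fun q hq => ?_⟩
      rw [Finset.mem_filter] at hq
      have hqS : q ∈ S := by
        have := hT.1 hq.1
        rw [Finset.mk_mem_sym2_iff] at this
        exact this.2
      have hqp : q ≠ p := by
        rintro rfl
        exact hT.2.1 _ hq.1 (by simp)
      have hqb : q ≠ bb p := by
        rintro rfl
        exact hq.2 ⟨p, hpI, rfl⟩
      have h3 := hother p hpI q hqS hqp hqb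
      simp only [Prod.fst_neg, Prod.snd_neg]
      linarith
    · have hp' : p ∉ convexHull ℝ ((S : Set (ℝ × ℝ)) \ {p}) := fun h => hpI (Finset.mem_filter.mpr ⟨hp, h⟩)
      obtain ⟨v, hv⟩ := separate (S.finite_toSet.subset Set.sdiff_subset) hp'
      refine ⟨v, fun q hq => ?_⟩
      rw [Finset.mem_filter] at hq
      have hqS : q ∈ S := by
        have := hT.1 hq.1
        rw [Finset.mk_mem_sym2_iff] at this
        exact this.2
      have hqp : q ≠ p := by
        rintro rfl
        exact hT.2.1 _ hq.1 (by simp)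
      exact hv q ⟨hqS, hqp⟩
  have hM : ∀ T : Finset (Sym2 (ℝ × ℝ)), ∃ M : Finset (Sym2 (ℝ × ℝ)), T ∈ Triang S →
      M ∈ PPT S ∧ (T.filter fun e => ¬ R e) ⊆ M := by
    intro T
    by_cases hT : T ∈ Triang S
    · obtain ⟨M, h1, h2⟩ := exists_ppt (S := S) (G := T.filter fun e => ¬ R e)
        ((Finset.filter_subset _ _).trans hT.1) (fun e he => hT.2.1 e (Finset.mem_filter.mp he).1)
        (nonCrossing_mono (Finset.filter_subset _ _) hT.2.2.1) (hG T hT)
      exact ⟨M, fun _ => ⟨h1, h2⟩⟩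
    · exact ⟨∅, fun h => absurd h hT⟩
  choose M hM using hM
  -- a pointed pseudotriangulation which is not in the image
  obtain ⟨p0, hp0⟩ := hne
  have hp0S : p0 ∈ S := (Finset.mem_filter.mp hp0).1
  have hp0b : p0 ≠ bb p0 := by
    intro h
    have := (hbS p0 hp0).2
    rw [← h] at this
    simp at this
  obtain ⟨M0, hM0, hM0sub⟩ := exists_ppt (S := S) (G := {s(p0, bb p0)}) (by
      intro e he
      rw [Finset.mem_singleton] at he
      rw [he, Finset.mk_mem_sym2_iff]
      exact ⟨hp0S, (hbS p0 hp0).1⟩) (by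
      intro e he
      rw [Finset.mem_singleton] at he
      rw [he, Sym2.mk_isDiag_iff]
      exact hp0b) (by
      intro a b c d h1 h2 hac had hbc hbd
      rw [Finset.mem_singleton] at h1 h2
      rw [← h2, Sym2.eq_iff] at h1
      rcases h1 with ⟨h, _⟩ | ⟨h, _⟩
      · exact absurd h hac
      · exact absurd h had) (pointed_single S hp0b)
  have hM0e : s(p0, bb p0) ∈ M0 := hM0sub (Finset.mem_singleton_self _)
  have hMne : ∀ T ∈ Triang S, M T ≠ M0 := by
    intro T hT h
    obtain ⟨v, hv⟩ := hM0.2.2.2.1 p0 hp0S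
    have hv0 : -v ≠ 0 := by
      intro h0
      have h1 := hv _ hM0e
      have h2 : v = 0 := by simpa using h0
      rw [h2] at h1
      simp at h1
    obtain ⟨x, hx, hxT⟩ := exists_edge hS hT hp0S (half_nonempty hS hp0 hv0)
    rw [mem_half] at hx
    have h2 := hx.2
    simp only [Prod.fst_neg, Prod.snd_neg] at h2
    by_cases hRx : R s(p0, x)
    · obtain ⟨p', hp', he⟩ := hRx
      rw [Sym2.eq_iff] at he
      rcases he with ⟨h3, h4⟩ | ⟨h3, _⟩
      · rw [h4, ← h3] at h2
        have h5 := hv _ hM0e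
        linarith
      · exact hbinner p' hp' (by rw [← h3]; exact hp0)
    · have h3 : s(p0, x) ∈ M0 := by
        rw [← h]
        exact (hM T hT).2 (Finset.mem_filter.mpr ⟨hxT, hRx⟩)
      have h4 := hv _ h3
      linarith
  rw [Set.ncard_eq_toFinset_card _ (triang_finite S), Set.ncard_eq_toFinset_card _ (ppt_finite S)]
  have hM0' : M0 ∈ (ppt_finite S).toFinset := by
    rw [Set.Finite.mem_toFinset]
    exact hM0
  have hcard : ((ppt_finite S).toFinset.erase M0).card < (ppt_finite S).toFinset.card := Finset.card_erase_lt_of_mem hM0'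
  refine lt_of_le_of_lt ?_ hcard
  refine Finset.card_le_card_of_injOn M ?_ ?_
  · intro T hT
    rw [Finset.mem_coe, Set.Finite.mem_toFinset] at hT
    rw [Finset.mem_coe, Finset.mem_erase, Set.Finite.mem_toFinset]
    exact ⟨hMne T hT, (hM T hT).1⟩
  · intro T1 hT1 T2 hT2 hMM
    rw [Finset.mem_coe, Set.Finite.mem_toFinset] at hT1 hT2
    have hR12 : ∀ T ∈ Triang S, ∀ e, R e → e ∈ T := by
      rintro T hT e ⟨p, hp, rfl⟩
      exact hmem T hT p hp
    have hsub : ∀ T T' : Finset (Sym2 (ℝ × ℝ)), T ∈ Triang S → T' ∈ Triang S → M T = M T' →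
        ∀ a b c d : ℝ × ℝ, s(a, b) ∈ T → s(c, d) ∈ T' →
        a ≠ c → a ≠ d → b ≠ c → b ≠ d → Disjoint (segment ℝ a b) (segment ℝ c d) := by
      intro T T' hT hT' hMe a b c d h1 h2 hac had hbc hbd
      by_cases hr1 : R s(a, b)
      · exact hT'.2.2.1 a b c d (hR12 T' hT' _ hr1) h2 hac had hbc hbd
      by_cases hr2 : R s(c, d)
      · exact hT.2.2.1 a b c d h1 (hR12 T hT _ hr2) hac had hbc hbd
      refine (hM T hT).1.2.2.1 a b c d ((hM T hT).2 (Finset.mem_filter.mpr ⟨h1, hr1⟩)) ?_ hac had hbc hbd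
      rw [hMe]
      exact (hM T' hT').2 (Finset.mem_filter.mpr ⟨h2, hr2⟩)
    have hnc : NonCrossing (T1 ∪ T2) := by
      intro a b c d h1 h2 hac had hbc hbd
      rw [Finset.mem_union] at h1 h2
      rcases h1 with h1 | h1 <;> rcases h2 with h2 | h2
      · exact hT1.2.2.1 a b c d h1 h2 hac had hbc hbd
      · exact hsub T1 T2 hT1 hT2 hMM a b c d h1 h2 hac had hbc hbd
      · exact hsub T2 T1 hT2 hT1 hMM.symm a b c d h1 h2 hac had hbc hbd
      · exact hT2.2.2.1 a b c d h1 h2 hac had hbc hbd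
    have hle : ∀ T T' : Finset (Sym2 (ℝ × ℝ)), T ∈ Triang S → T' ∈ Triang S → NonCrossing (T ∪ T') → T' ⊆ T := by
      intro T T' hT hT' h e he
      by_contra hcon
      refine hT.2.2.2 e (hT'.1 he) (hT'.2.1 e he) hcon (nonCrossing_mono ?_ h)
      intro e' he'
      rw [Finset.mem_insert] at he'
      rw [Finset.mem_union]
      rcases he' with rfl | he'
      · exact Or.inr he
      · exact Or.inl he'
    exact Finset.Subset.antisymm (hle T2 T1 hT2 hT1 (by rwa [Finset.union_comm])) (hle T1 T2 hT1 hT2 hnc)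

end Pool.Agent.Work.MP_02cc39_co
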